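import Pool.Agent.Lib_MP_22d2c8_ol.Low

/-!
# The grid sets

Indices `2 p u + w` with `u, w < p`. The set `gA` consists of `p` short intervals, the set `gB` is
a thickened parabola modulo `p`.
-/

namespace Pool.Agent.Lib_MP_22d2c8_ol

open Finset Pool.Agent.Lib_MP_22d2c8_sym

variable {n : ℕ}

/-- first coordinate -/
def fc (p : ℕ) (i : Fin n) : ℕ := i.1 / (2 * p)

/-- second coordinate -/
def sc (p : ℕ) (i : Fin n) : ℕ := i.1 % (2 * p)

/-- the index lies on the grid -/
def OnGrid (p : ℕ) (i : Fin n) : Prop := fc p i < p ∧ sc p i < p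

/-- The indices with second coordinate in `v + [0, L)`. -/
def gA (n p L : ℕ) (v : ZMod p) : Finset (Fin n) :=
  univ.filter fun i => fc p i < p ∧ sc p i < p ∧ ((sc p i : ZMod p) - v).val < L

/-- The indices with second coordinate in `v + (first coordinate)^2 + [0, L)`. -/
def gB (n p L : ℕ) (v : ZMod p) : Finset (Fin n) :=
  univ.filter fun i => fc p i < p ∧ sc p i < p ∧
    ((sc p i : ZMod p) - (fc p i : ZMod p) ^ 2 - v).val < L

theorem idx_lt {p u w : ℕ} (hn : 2 * p * p ≤ n) (hu : u < p) (hw : w < p) :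
    2 * p * u + w < n := by
  have h1 : 2 * p * (u + 1) ≤ 2 * p * p := Nat.mul_le_mul_left _ hu
  nlinarith

/-- the index with given coordinates -/
def mk (p : ℕ) (hn : 2 * p * p ≤ n) (u w : ℕ) (hu : u < p) (hw : w < p) : Fin n :=
  ⟨2 * p * u + w, idx_lt hn hu hw⟩

theorem fc_mk {p u w : ℕ} (hn : 2 * p * p ≤ n) (hu : u < p) (hw : w < p) :
    fc p (mk p hn u w hu hw) = u := by
  unfold fc mk
  simp only
  have hp : 0 < 2 * p := by omega
  rw [Nat.mul_add_div hp, Nat.div_eq_of_lt (by omega), add_zero]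

theorem sc_mk {p u w : ℕ} (hn : 2 * p * p ≤ n) (hu : u < p) (hw : w < p) :
    sc p (mk p hn u w hu hw) = w := by
  unfold sc mk
  simp only
  rw [Nat.mul_add_mod, Nat.mod_eq_of_lt (by omega)]

theorem ext_grid {p : ℕ} {i j : Fin n} (h1 : fc p i = fc p j) (h2 : sc p i = sc p j) : i = j := by
  unfold fc sc at *
  apply Fin.ext
  rw [← Nat.div_add_mod i.1 (2 * p), ← Nat.div_add_mod j.1 (2 * p), h1, h2]

theorem natCast_inj {p a b : ℕ} (ha : a < p) (hb : b < p) (h : (a : ZMod p) = (b : ZMod p)) :
    a = b := by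
  have h1 := (ZMod.natCast_eq_natCast_iff' a b p).1 h
  rwa [Nat.mod_eq_of_lt ha, Nat.mod_eq_of_lt hb] at h1

theorem val_natCast_lt {p r : ℕ} (hr : r < p) : ((r : ℕ) : ZMod p).val = r :=
  ZMod.val_natCast_of_lt hr

section

variable {p L : ℕ} [hp : Fact p.Prime] (hn : 2 * p * p ≤ n) (hL : L ≤ p)

include hn hL in
theorem gA_card (v : ZMod p) (Φ : Finset ℕ) :
    (p - Φ.card) * L ≤ ((gA n p L v).filter fun i => fc p i ∉ Φ).card := by
  classical
  have hp0 : 0 < p := hp.out.pos
  set D : Finset (ℕ × ℕ) := (range p \ Φ) ×ˢ range L with hD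
  have h1 : (p - Φ.card) * L ≤ D.card := by
    rw [hD, card_product, card_range]
    refine Nat.mul_le_mul_right _ ?_
    have h2 := le_card_sdiff Φ (range p)
    rwa [card_range] at h2
  refine h1.trans ?_
  refine card_le_card_of_injOn (fun q => if h : q.1 < p then
    mk p hn q.1 (v + (q.2 : ZMod p)).val h (ZMod.val_lt _) else ⟨0, by nlinarith⟩) ?_ ?_
  · intro q hq
    have hq' := mem_product.1 (mem_coe.1 hq)
    have hq1 := mem_sdiff.1 hq'.1
    have hu := mem_range.1 hq1.1
    have hr := mem_range.1 hq'.2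
    simp only [dif_pos hu]
    rw [mem_coe, mem_filter, gA, mem_filter, fc_mk, sc_mk]
    refine ⟨⟨mem_univ _, hu, ZMod.val_lt _, ?_⟩, hq1.2⟩
    rw [ZMod.natCast_zmod_val, add_sub_cancel_left, val_natCast_lt (by omega)]
    exact hr
  · intro q hq q' hq' h
    have hq2 := mem_product.1 (mem_coe.1 hq)
    have hq2' := mem_product.1 (mem_coe.1 hq')
    have hu := mem_range.1 (mem_sdiff.1 hq2.1).1
    have hu' := mem_range.1 (mem_sdiff.1 hq2'.1).1
    have hr := mem_range.1 hq2.2
    have hr' := mem_range.1 hq2'.2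
    simp only [dif_pos hu, dif_pos hu'] at h
    have h3 := congrArg (fc p) h
    have h4 := congrArg (sc p) h
    rw [fc_mk, fc_mk] at h3
    rw [sc_mk, sc_mk] at h4
    have h5 := ZMod.val_injective p h4
    have h6 := add_left_cancel h5
    exact Prod.ext h3 (natCast_inj (by omega) (by omega) h6)

include hn hL in
theorem gB_card (v : ZMod p) : p * L ≤ (gB n p L v).card := by
  classical
  have hp0 : 0 < p := hp.out.pos
  have h1 : p * L = (range p ×ˢ range L).card := by
    rw [card_product, card_range, card_range]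
  rw [h1]
  refine card_le_card_of_injOn (fun q => if h : q.1 < p then
    mk p hn q.1 (v + (q.1 : ZMod p) ^ 2 + (q.2 : ZMod p)).val h (ZMod.val_lt _)
      else ⟨0, by nlinarith⟩) ?_ ?_
  · intro q hq
    have hq' := mem_product.1 (mem_coe.1 hq)
    have hu := mem_range.1 hq'.1
    have hr := mem_range.1 hq'.2
    simp only [dif_pos hu]
    rw [mem_coe, gB, mem_filter, fc_mk, sc_mk]
    refine ⟨mem_univ _, hu, ZMod.val_lt _, ?_⟩
    have h2 : v + (q.1 : ZMod p) ^ 2 + (q.2 : ZMod p) - (q.1 : ZMod p) ^ 2 - v =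
        (q.2 : ZMod p) := by ring
    rw [ZMod.natCast_zmod_val, h2, val_natCast_lt (by omega)]
    exact hr
  · intro q hq q' hq' h
    have hq2 := mem_product.1 (mem_coe.1 hq)
    have hq2' := mem_product.1 (mem_coe.1 hq')
    have hu := mem_range.1 hq2.1
    have hu' := mem_range.1 hq2'.1
    have hr := mem_range.1 hq2.2
    have hr' := mem_range.1 hq2'.2
    simp only [dif_pos hu, dif_pos hu'] at h
    have h3 := congrArg (fc p) h
    have h4 := congrArg (sc p) h
    rw [fc_mk, fc_mk] at h3
    rw [sc_mk, sc_mk] at h4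
    have h5 := ZMod.val_injective p h4
    rw [h3] at h5
    have h6 := add_left_cancel h5
    exact Prod.ext h3 (natCast_inj (by omega) (by omega) h6)

theorem add_grid {i j i' j' : Fin n} (hi : sc p i < p) (hj : sc p j < p) (hi' : sc p i' < p)
    (hj' : sc p j' < p) (h : ad i j = ad i' j') :
    fc p i + fc p j = fc p i' + fc p j' ∧ sc p i + sc p j = sc p i' + sc p j' := by
  have hp0 : 0 < p := hp.out.pos
  have h1 := congrArg Fin.val h
  unfold ad at h1
  simp only at h1
  have e1 : i.1 = 2 * p * fc p i + sc p i := (Nat.div_add_mod i.1 (2 * p)).symm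
  have e2 : j.1 = 2 * p * fc p j + sc p j := (Nat.div_add_mod j.1 (2 * p)).symm
  have e3 : i'.1 = 2 * p * fc p i' + sc p i' := (Nat.div_add_mod i'.1 (2 * p)).symm
  have e4 : j'.1 = 2 * p * fc p j' + sc p j' := (Nat.div_add_mod j'.1 (2 * p)).symm
  have h2 : 2 * p * (fc p i + fc p j) + (sc p i + sc p j) =
      2 * p * (fc p i' + fc p j') + (sc p i' + sc p j') := by
    rw [mul_add, mul_add]
    omega
  have h3 := congrArg (· / (2 * p)) h2
  have h4 := congrArg (· % (2 * p)) h2
  rw [Nat.mul_add_div (by omega), Nat.mul_add_div (by omega), Nat.div_eq_of_lt (by omega),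
    Nat.div_eq_of_lt (by omega)] at h3
  rw [Nat.mul_add_mod, Nat.mul_add_mod, Nat.mod_eq_of_lt (by omega),
    Nat.mod_eq_of_lt (by omega)] at h4
  exact ⟨by omega, h4⟩

theorem gB_sep (h2p : p ≠ 2) (v v' : ZMod p) (i i' : Fin n) (hi : i ∈ gA n p L v)
    (hi' : i' ∈ gA n p L v) (hne : fc p i ≠ fc p i') :
    (sh (gB n p L v') i ∩ sh (gB n p L v') i').card ≤ L ^ 2 := by
  classical
  have hp0 : 0 < p := hp.out.pos
  obtain ⟨-, hi1, hi2, -⟩ := mem_filter.1 hi
  obtain ⟨-, hi1', hi2', -⟩ := mem_filter.1 hi'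
  have hex : ∀ u ∈ sh (gB n p L v') i ∩ sh (gB n p L v') i', ∃ j j' : Fin n,
      j ∈ gB n p L v' ∧ j' ∈ gB n p L v' ∧ ad i j = u ∧ ad i' j' = u := by
    intro u hu
    obtain ⟨h1, h2⟩ := mem_inter.1 hu
    obtain ⟨j, hj, hju⟩ := mem_sh.1 h1
    obtain ⟨j', hj', hju'⟩ := mem_sh.1 h2
    exact ⟨j, j', hj, hj', hju, hju'⟩
  choose f g hf hg hfu hgu using hex
  have hcard : L ^ 2 = (range L ×ˢ range L).card := by
    rw [card_product, card_range, sq]
  rw [hcard, ← card_attach]
  -- residues
  set res : Fin n → ZMod p := fun j => (sc p j : ZMod p) - (fc p j : ZMod p) ^ 2 - v' with hres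
  refine card_le_card_of_injOn (fun u => ((res (f u.1 u.2)).val, (res (g u.1 u.2)).val)) ?_ ?_
  · intro u _
    obtain ⟨-, -, -, h1⟩ := mem_filter.1 (hf u.1 u.2)
    obtain ⟨-, -, -, h2⟩ := mem_filter.1 (hg u.1 u.2)
    rw [mem_coe, mem_product]
    exact ⟨mem_range.2 h1, mem_range.2 h2⟩
  · rintro ⟨u, hu⟩ _ ⟨w, hw⟩ _ h
    have h1 := congrArg Prod.fst h
    have h2 := congrArg Prod.snd h
    simp only at h1 h2
    have h1' := ZMod.val_injective p h1
    have h2' := ZMod.val_injective p h2
    obtain ⟨-, a1, a2, -⟩ := mem_filter.1 (hf u hu)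
    obtain ⟨-, b1, b2, -⟩ := mem_filter.1 (hg u hu)
    obtain ⟨-, c1, c2, -⟩ := mem_filter.1 (hf w hw)
    obtain ⟨-, d1, d2, -⟩ := mem_filter.1 (hg w hw)
    have e1 := add_grid (p := p) hi2 a2 hi2' b2 ((hfu u hu).trans (hgu u hu).symm)
    have e2 := add_grid (p := p) hi2 c2 hi2' d2 ((hfu w hw).trans (hgu w hw).symm)
    -- everything modulo `p`
    have k1 : (fc p i : ZMod p) + fc p (f u hu) = fc p i' + fc p (g u hu) := by
      exact_mod_cast congrArg (Nat.cast : ℕ → ZMod p) e1.1
    have k2 : (sc p i : ZMod p) + sc p (f u hu) = sc p i' + sc p (g u hu) := by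
      exact_mod_cast congrArg (Nat.cast : ℕ → ZMod p) e1.2
    have k3 : (fc p i : ZMod p) + fc p (f w hw) = fc p i' + fc p (g w hw) := by
      exact_mod_cast congrArg (Nat.cast : ℕ → ZMod p) e2.1
    have k4 : (sc p i : ZMod p) + sc p (f w hw) = sc p i' + sc p (g w hw) := by
      exact_mod_cast congrArg (Nat.cast : ℕ → ZMod p) e2.2
    rw [hres] at h1' h2'
    simp only at h1' h2'
    set I1 : ZMod p := (fc p i : ZMod p) with hI1
    set I2 : ZMod p := (sc p i : ZMod p) with hI2
    set J1 : ZMod p := (fc p i' : ZMod p) with hJ1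
    set J2 : ZMod p := (sc p i' : ZMod p) with hJ2
    set x : ZMod p := (fc p (f u hu) : ZMod p) with hx
    set x' : ZMod p := (fc p (g u hu) : ZMod p) with hx'
    set y : ZMod p := (sc p (f u hu) : ZMod p) with hy
    set y' : ZMod p := (sc p (g u hu) : ZMod p) with hy'
    set z : ZMod p := (fc p (f w hw) : ZMod p) with hz
    set z' : ZMod p := (fc p (g w hw) : ZMod p) with hz'
    set r : ZMod p := (sc p (f w hw) : ZMod p) with hr
    set r' : ZMod p := (sc p (g w hw) : ZMod p) with hr'
    have hδ : I1 - J1 ≠ 0 := by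
      intro h0
      exact hne (natCast_inj hi1 hi1' (sub_eq_zero.1 h0))
    have h20 : (2 : ZMod p) ≠ 0 := by
      intro h0
      have h3 : ((2 : ℕ) : ZMod p) = 0 := by exact_mod_cast h0
      rw [ZMod.natCast_eq_zero_iff] at h3
      exact h2p ((Nat.prime_dvd_prime_iff_eq hp.out Nat.prime_two).1 h3)
    have hxz : x = z := by
      have h3 : 2 * (I1 - J1) * (x - z) = 0 := by
        have q1 : x' = x + (I1 - J1) := by linear_combination -k1
        have q2 : z' = z + (I1 - J1) := by linear_combination -k3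
        have q3 : y' = y + (I2 - J2) := by linear_combination -k2
        have q4 : r' = r + (I2 - J2) := by linear_combination -k4
        rw [q1, q2, q3, q4] at h2'
        linear_combination h1' - h2'
      have h4 : x - z = 0 := by
        rcases mul_eq_zero.1 h3 with h5 | h5
        · exact absurd (mul_eq_zero.1 h5) (by
            push Not
            exact ⟨h20, hδ⟩)
        · exact h5
      exact sub_eq_zero.1 h4
    have hyr : y = r := by
      rw [hxz] at h1'
      linear_combination h1'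
    have t1 : fc p (f u hu) = fc p (f w hw) := natCast_inj a1 c1 hxz
    have t2 : sc p (f u hu) = sc p (f w hw) := natCast_inj a2 c2 hyr
    have t3 : f u hu = f w hw := ext_grid t1 t2
    apply Subtype.ext
    calc u = ad i (f u hu) := (hfu u hu).symm
      _ = ad i (f w hw) := by rw [t3]
      _ = w := hfu w hw

/-- low rank is rare on the grid -/
theorem lows_grid (h2p : p ≠ 2) (hn' : 2 * p * p ≤ n) (hL1 : 1 ≤ L) (hL2 : 2 * L ≤ p)
    (v v' : ZMod p) :
    2 ^ (p * p / 8) * (lows (gA n p L v) (gB n p L v') (p * L / 16)).card ≤ 2 ^ (2 * n - 1) := by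
  have hp0 : 0 < p := hp.out.pos
  set s := p / (2 * L) with hs
  set ρ := p * L / 16 with hρ
  set x := s * L with hx
  have hx1 : 2 * x ≤ p := by
    have h1 : p / (2 * L) * (2 * L) ≤ p := Nat.div_mul_le_self _ _
    calc 2 * x = p / (2 * L) * (2 * L) := by rw [hx, hs]; ring
      _ ≤ p := h1
  have hx2 : p ≤ 4 * x := by
    have h1 : 1 ≤ s := by
      rw [hs]
      exact (Nat.one_le_div_iff (by omega)).2 hL2
    have h2 : p < (s + 1) * (2 * L) := by
      rw [hs]
      exact Nat.lt_mul_of_div_lt (Nat.lt_succ_self _) (by omega)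
    have h3 : (s + 1) * (2 * L) ≤ (2 * s) * (2 * L) := Nat.mul_le_mul_right _ (by omega)
    have h4 : (2 * s) * (2 * L) = 4 * x := by rw [hx]; ring
    omega
  have hρ16 : 16 * ρ ≤ p * L := by
    rw [hρ, mul_comm 16]
    exact Nat.div_mul_le_self _ _
  have h8 : 8 * (p * p / 8) ≤ p * p := by
    rw [mul_comm 8]
    exact Nat.div_mul_le_self _ _
  have h1 := lows_card (fc p) (gA n p L v) (gB n p L v') (L ^ 2) ρ s (ρ * s + p * p / 8)
    (fun i hi i' hi' hne => gB_sep h2p v v' i i' hi hi' hne)
    (by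
      intro Φ hΦ
      refine le_trans ?_ (gA_card hn' (by omega) v Φ)
      have h3 : 2 * s ≤ p := by
        have : s ≤ x := by
          rw [hx]
          exact Nat.le_mul_of_pos_right _ hL1
        omega
      have h4 : p ≤ 2 * (p - Φ.card) := by omega
      have h5 : p * L ≤ 2 * (p - Φ.card) * L := Nat.mul_le_mul_right _ h4
      have h6 : 2 * (p - Φ.card) * L = 2 * ((p - Φ.card) * L) := by ring
      omega)
    (by
      have hB := gB_card hn' (by omega : L ≤ p) v'
      have h3 : 2 * s * (p * L) ≤ 2 * s * (gB n p L v').card := Nat.mul_le_mul_left _ hB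
      refine le_trans ?_ h3
      have h4 : 2 * s * (p * L) = 2 * (p * x) := by rw [hx]; ring
      have h5 : s ^ 2 * L ^ 2 = x * x := by rw [hx]; ring
      have h6 : 16 * (ρ * s) ≤ p * x := by
        calc 16 * (ρ * s) = (16 * ρ) * s := by ring
          _ ≤ (p * L) * s := Nat.mul_le_mul_right _ hρ16
          _ = p * x := by rw [hx]; ring
      have h7 : 2 * (x * x) ≤ p * x := by
        calc 2 * (x * x) = (2 * x) * x := by ring
          _ ≤ p * x := Nat.mul_le_mul_right _ hx1
      have h9 : p * p ≤ 4 * (p * x) := by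
        calc p * p ≤ p * (4 * x) := Nat.mul_le_mul_left _ hx2
          _ = 4 * (p * x) := by ring
      rw [h4, h5]
      omega)
  rw [pow_add] at h1
  have h2 : 2 ^ (ρ * s) * (2 ^ (p * p / 8) * (lows (gA n p L v) (gB n p L v') ρ).card) ≤
      2 ^ (ρ * s) * 2 ^ (2 * n - 1) := by
    rw [← mul_assoc]
    exact h1
  exact Nat.le_of_mul_le_mul_left h2 (by positivity)

/-- every index lies in `gA` for at most `L` values of `v` -/
theorem marg_A (i : Fin n) : (univ.filter fun v : ZMod p => i ∈ gA n p L v).card ≤ L := by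
  classical
  calc (univ.filter fun v : ZMod p => i ∈ gA n p L v).card ≤ (range L).card := by
        refine card_le_card_of_injOn (fun v => ((sc p i : ZMod p) - v).val) ?_ ?_
        · intro v hv
          obtain ⟨-, -, -, h⟩ := mem_filter.1 (mem_filter.1 hv).2
          exact mem_coe.2 (mem_range.2 h)
        · intro v _ w _ h
          have h1 := ZMod.val_injective p h
          exact sub_right_injective h1
    _ = L := card_range L

theorem marg_B (i : Fin n) : (univ.filter fun v : ZMod p => i ∈ gB n p L v).card ≤ L := by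
  classical
  calc (univ.filter fun v : ZMod p => i ∈ gB n p L v).card ≤ (range L).card := by
        refine card_le_card_of_injOn
          (fun v => ((sc p i : ZMod p) - (fc p i : ZMod p) ^ 2 - v).val) ?_ ?_
        · intro v hv
          obtain ⟨-, -, -, h⟩ := mem_filter.1 (mem_filter.1 hv).2
          exact mem_coe.2 (mem_range.2 h)
        · intro v _ w _ h
          have h1 := ZMod.val_injective p h
          exact sub_right_injective h1
    _ = L := card_range L

end

end Pool.Agent.Lib_MP_22d2c8_ol
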