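import Pool.Agent.Lib_MP_22d2c8_ol.Eval

/-!
# OL-Count: the number of tuples of node functions

Proof of `tup_card` (chain rule over the gates). For `m : ℕ` let `F m t` be the tuple
`fun g s => if Node g ∧ g.val < m then mv C K Z z (inpt S t s) g else false`, so
`F (C.m + 1) t = tup t`. Claim: the image of `F m` has at most
`∏ g ∈ univ.filter (fun g => Node g ∧ g.val < m), w * (2 ^ 2 ^ max K 1) ^ nl g` elements.
Induction on `m`. `m = 0`: one element. Step `m → m + 1`: if there is no gate with `g.val = m`, or if
that gate is not a node, then `F (m + 1) = F m`, and the product does not change. Let `g` be the gate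
with `g.val = m`, a node. Let `I` be the set of `i : Fin (C.arity g)` with `¬ liveS C K S Z (C.src g i)`
(so `Iᶜ` has `nl g` elements). For `i ∈ I` the value `mvS C K Z z (inpt S t s) (C.src g i)` does not
depend on `s` (`mvS_const`); call it `c t i` (for instance the value at `s = fun _ => false`).
For `i ∉ I` apply `segment`: either there is an earlier node `r i < g` such that for every `t`
the function `s ↦ mvS … (C.src g i)` is `fun s => u (mv … (r i))` for some `u : Bool → Bool`, that is
`fun s => u (F m t (r i) s)`; or there is a set `D i` of at most `max K 1` variables such that for every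
`t` the function `s ↦ mvS … (C.src g i)` depends only on the restriction of `s` to `D i`. Given `F m t = f`
the function `ψ t i : (W → Bool) → Bool` therefore lies in a set `Ψ f i` with at most
`2 ^ 2 ^ max K 1` elements: in the first case the image of `fun u s => u (f (r i) s)` on `Bool → Bool`
(at most `4 = 2 ^ 2 ^ 1` elements), in the second case the functions that depend only on `D i`
(at most `2 ^ 2 ^ (D i).card`: inject into `(D i → Bool) → Bool`; this set does not depend on `f`).
Finally by `mv_eq` (and `Function.update`-free reasoning)
`mv … g = sub (C.op g) I (c t) (fun i => ψ t i s)` for every `s`, where `sub (C.op g) I (c t)` is one of at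
most `w` functions (`hop g I`). So `F (m + 1) t` is a function of `F m t`, of the element
`sub (C.op g) I (c t)` of `univ.image (sub (C.op g) I)`, and of the family `(ψ t i)_(i ∉ I)` in a product
(`Finset.pi` or `Fintype.piFinset` with `{fun _ => false}` for `i ∈ I`) of sets with at most
`2 ^ 2 ^ max K 1` elements. Hence the image of `F (m + 1)` is contained in the union over
`f` in the image of `F m` of the images of these products, and has at most
`|image (F m)| * w * (2 ^ 2 ^ max K 1) ^ nl g` elements.
-/

set_option linter.unusedSectionVars false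

namespace Pool.Agent.Lib_MP_22d2c8_ol

open Finset Pool.Agent.Lib_MP_22d2c8_sym

open Classical in
/-- The functions recorded at the nodes for the vector `t`. -/
noncomputable def tup {W U : Type} [DecidableEq W] (C : Circuit (W ⊕ U)) (K : ℕ) (S : Finset W)
    (Z : Finset C.Gate) (z : C.Gate → Bool) (t : U → Bool) : C.Gate → (W → Bool) → Bool :=
  fun g s => if Node C K S Z g then mv C K Z z (inpt S t s) g else false

variable {W U : Type} [DecidableEq W] [Fintype W] [Fintype U] {C : Circuit (W ⊕ U)} {K : ℕ}
  {S : Finset W} {Z : Finset C.Gate}

open Classical in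
/-- The functions recorded at the nodes before the gate number `m`. -/
private noncomputable def CountF (C : Circuit (W ⊕ U)) (K : ℕ) (S : Finset W)
    (Z : Finset C.Gate) (z : C.Gate → Bool) (m : ℕ) (t : U → Bool) :
    C.Gate → (W → Bool) → Bool :=
  fun g s => if Node C K S Z g ∧ g.val < m then mv C K Z z (inpt S t s) g else false

open Classical in
private theorem Count_src (z : C.Gate → Bool) (g : C.Gate) (i : Fin (C.arity g)) :
    ∃ Ψ : (C.Gate → (W → Bool) → Bool) → Finset ((W → Bool) → Bool),
      (∀ f, (Ψ f).card ≤ if liveS C K S Z (C.src g i) then 2 ^ 2 ^ max K 1 else 1) ∧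
      ∀ t : U → Bool, (fun s : W → Bool => if liveS C K S Z (C.src g i) then
        mvS C K Z z (inpt S t s) (C.src g i) else false) ∈
          Ψ (CountF C K S Z z g.val t) := by
  by_cases hl : liveS C K S Z (C.src g i)
  · rcases segment z g i hl with ⟨r, hr, hN, hc⟩ | ⟨D, hD, hc⟩
    · refine ⟨fun f => univ.image fun (u : Bool → Bool) (s : W → Bool) => u (f r s),
        fun f => ?_, fun t => ?_⟩
      · rw [if_pos hl]
        refine card_image_le.trans ?_
        rw [card_univ, Fintype.card_fun, Fintype.card_bool]
        refine Nat.pow_le_pow_right (by norm_num) ?_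
        calc 2 = 2 ^ 1 := rfl
          _ ≤ 2 ^ max K 1 := Nat.pow_le_pow_right (by norm_num) (le_max_right _ _)
      · obtain ⟨u, hu⟩ := hc t
        rw [mem_image]
        refine ⟨u, mem_univ _, ?_⟩
        funext s
        rw [if_pos hl, hu s]
        unfold CountF
        rw [if_pos ⟨hN, hr⟩]
    · refine ⟨fun _ => univ.image fun (u : ({w // w ∈ D} → Bool) → Bool) (s : W → Bool) =>
        u fun w => s w.1, fun f => ?_, fun t => ?_⟩
      · rw [if_pos hl]
        refine card_image_le.trans ?_
        rw [card_univ, Fintype.card_fun, Fintype.card_fun, Fintype.card_bool,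
          Fintype.card_coe]
        exact Nat.pow_le_pow_right (by norm_num) (Nat.pow_le_pow_right (by norm_num) hD)
      · rw [mem_image]
        refine ⟨fun v => mvS C K Z z (inpt S t fun w => if h : w ∈ D then v ⟨w, h⟩ else false)
          (C.src g i), mem_univ _, ?_⟩
        funext s
        rw [if_pos hl]
        refine hc t _ _ fun w hw => ?_
        rw [dif_pos hw]
  · refine ⟨fun _ => {fun _ => false}, fun f => ?_, fun t => ?_⟩
    · rw [if_neg hl, card_singleton]
    · rw [mem_singleton]
      funext s
      rw [if_neg hl]

open Classical in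
private theorem Count_mv (z : C.Gate → Bool) (g : C.Gate) (t : U → Bool) (s : W → Bool) :
    mv C K Z z (inpt S t s) g =
      sub (C.op g) (univ.filter fun i => ¬ liveS C K S Z (C.src g i))
        (fun i => mvS C K Z z (inpt S t fun _ => false) (C.src g i))
        (fun i => if liveS C K S Z (C.src g i) then mvS C K Z z (inpt S t s) (C.src g i)
          else false) := by
  rw [mv_eq]
  unfold sub
  congr 1
  funext i
  have h1 : (i ∈ univ.filter fun i => ¬ liveS C K S Z (C.src g i)) ↔
      ¬ liveS C K S Z (C.src g i) := by
    rw [mem_filter]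
    exact and_iff_right (mem_univ _)
  by_cases hl : liveS C K S Z (C.src g i)
  · have h2 : ¬ (i ∈ univ.filter fun i => ¬ liveS C K S Z (C.src g i)) := fun h => h1.1 h hl
    rw [if_neg h2]
    exact (if_pos hl).symm
  · rw [if_pos (h1.2 hl)]
    exact mvS_const z t s _ _ hl

open Classical in
private theorem Count_step (z : C.Gate → Bool) (w : ℕ) (hop : ∀ g, SubLE w (C.op g))
    (g : C.Gate) (hg : Node C K S Z g) :
    (univ.image (CountF C K S Z z (g.val + 1))).card ≤
      (univ.image (CountF C K S Z z g.val)).card *
        (w * (2 ^ 2 ^ max K 1) ^ nl C K S Z g) := by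
  choose Ψ hΨ1 hΨ2 using fun i => Count_src (K := K) (S := S) (Z := Z) z g i
  set I : Finset (Fin (C.arity g)) := univ.filter fun i => ¬ liveS C K S Z (C.src g i) with hI
  set G : (C.Gate → (W → Bool) → Bool) → ((Fin (C.arity g) → Bool) → Bool) ×
      (Fin (C.arity g) → (W → Bool) → Bool) → (C.Gate → (W → Bool) → Bool) :=
    fun f p h s => if h = g then p.1 (fun i => p.2 i s) else f h s with hG
  have hsub : univ.image (CountF C K S Z z (g.val + 1)) ⊆
      (univ.image (CountF C K S Z z g.val)).biUnion fun f =>
        ((univ.image (sub (C.op g) I)) ×ˢ (Fintype.piFinset fun i => Ψ i f)).image (G f) := by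
    intro f' hf'
    obtain ⟨t, -, rfl⟩ := mem_image.1 hf'
    rw [mem_biUnion]
    refine ⟨CountF C K S Z z g.val t, mem_image_of_mem _ (mem_univ _), ?_⟩
    rw [mem_image]
    refine ⟨(sub (C.op g) I (fun i => mvS C K Z z (inpt S t fun _ => false) (C.src g i)),
      fun i s => if liveS C K S Z (C.src g i) then mvS C K Z z (inpt S t s) (C.src g i)
          else false), ?_, ?_⟩
    · rw [mem_product]
      refine ⟨mem_image_of_mem _ (mem_univ _), ?_⟩
      rw [Fintype.mem_piFinset]
      exact fun i => hΨ2 i t
    · funext h s
      rw [hG]
      simp only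
      by_cases hh : h = g
      · subst hh
        rw [if_pos rfl]
        unfold CountF
        rw [if_pos ⟨hg, Nat.lt_succ_self _⟩, Count_mv]
      · rw [if_neg hh]
        unfold CountF
        have h1 : h.val ≠ g.val := fun h2 => hh (Fin.ext h2)
        have h2 : (h.val < g.val) ↔ h.val < g.val + 1 := by omega
        exact if_congr (and_congr_right fun _ => h2) rfl rfl
  refine (card_le_card hsub).trans ?_
  refine card_biUnion_le_card_mul _ _ _ fun f _ => ?_
  refine card_image_le.trans ?_
  rw [card_product]
  refine Nat.mul_le_mul (hop g I) ?_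
  rw [Fintype.card_piFinset]
  refine (prod_le_prod' fun i _ => hΨ1 i f).trans ?_
  rw [prod_ite, prod_const, prod_const_one, mul_one]
  exact le_of_eq rfl

open Classical in
/-- There are few tuples of node functions. -/
theorem tup_card (z : C.Gate → Bool) (w : ℕ) (hop : ∀ g, SubLE w (C.op g)) :
    (univ.image (tup C K S Z z)).card ≤
      ∏ g ∈ univ.filter (fun g => Node C K S Z g), w * (2 ^ 2 ^ max K 1) ^ nl C K S Z g := by
  have key : ∀ m : ℕ, (univ.image (CountF C K S Z z m)).card ≤
      ∏ g ∈ univ.filter (fun g : C.Gate => Node C K S Z g ∧ g.val < m),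
        w * (2 ^ 2 ^ max K 1) ^ nl C K S Z g := by
    intro m
    induction m with
    | zero =>
      have h1 : (univ.filter fun g : C.Gate => Node C K S Z g ∧ g.val < 0) = ∅ := by
        rw [filter_eq_empty_iff]
        intro g _ h
        exact absurd h.2 (Nat.not_lt_zero _)
      rw [h1, prod_empty]
      refine card_le_one.2 ?_
      intro a ha b hb
      obtain ⟨t, -, rfl⟩ := mem_image.1 ha
      obtain ⟨t', -, rfl⟩ := mem_image.1 hb
      funext g s
      unfold CountF
      rw [if_neg (fun h => absurd h.2 (Nat.not_lt_zero _)),
        if_neg (fun h => absurd h.2 (Nat.not_lt_zero _))]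
    | succ m ih =>
      by_cases hm : ∃ g : C.Gate, g.val = m ∧ Node C K S Z g
      · obtain ⟨g, rfl, hg⟩ := hm
        have h1 : (univ.filter fun h : C.Gate => Node C K S Z h ∧ h.val < g.val + 1) =
            insert g (univ.filter fun h : C.Gate => Node C K S Z h ∧ h.val < g.val) := by
          ext h
          rw [mem_insert, mem_filter, mem_filter]
          constructor
          · rintro ⟨-, h2, h3⟩
            by_cases hh : h = g
            · exact Or.inl hh
            · have h4 : h.val ≠ g.val := fun h5 => hh (Fin.ext h5)
              exact Or.inr ⟨mem_univ _, h2, by omega⟩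
          · rintro (rfl | ⟨-, h2, h3⟩)
            · exact ⟨mem_univ _, hg, Nat.lt_succ_self _⟩
            · exact ⟨mem_univ _, h2, by omega⟩
        rw [h1, prod_insert (fun h => absurd (mem_filter.1 h).2.2 (lt_irrefl _)), mul_comm]
        exact (Count_step z w hop g hg).trans (Nat.mul_le_mul_right _ ih)
      · have hiff : ∀ g : C.Gate, (Node C K S Z g ∧ g.val < m + 1) ↔
            (Node C K S Z g ∧ g.val < m) := by
          intro g
          constructor
          · rintro ⟨h1, h2⟩
            have h3 : g.val ≠ m := fun h4 => hm ⟨g, h4, h1⟩
            exact ⟨h1, by omega⟩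
          · rintro ⟨h1, h2⟩
            exact ⟨h1, by omega⟩
        have h1 : (univ.filter fun h : C.Gate => Node C K S Z h ∧ h.val < m + 1) =
            univ.filter fun h : C.Gate => Node C K S Z h ∧ h.val < m :=
          filter_congr fun g _ => hiff g
        have h2 : CountF C K S Z z (m + 1) = CountF C K S Z z m := by
          funext t g s
          unfold CountF
          rw [if_congr (hiff g) rfl rfl]
        rw [h1, h2]
        exact ih
  have h1 : tup C K S Z z = CountF C K S Z z (C.m + 1) := by
    funext t g s
    unfold tup CountF
    rw [if_congr (and_iff_left g.isLt).symm rfl rfl]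
  have h2 : (univ.filter fun g : C.Gate => Node C K S Z g) =
      univ.filter fun g : C.Gate => Node C K S Z g ∧ g.val < C.m + 1 :=
    filter_congr fun g _ => (and_iff_left g.isLt).symm
  rw [h1, h2]
  exact key _

end Pool.Agent.Lib_MP_22d2c8_ol
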