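import Pool.Agent.Lib_MP_22d2c8_sym.Defs
import Pool.Agent.Lib_MP_22d2c8_ol.Grid

/-!
# Live gates, guessed evaluation, the variables below a gate

`W` are the variables which one player may own, `U` those of the other player. Gates that are small
(depend on at most `K` variables of `W`) are treated like input variables.
-/

namespace Pool.Agent.Lib_MP_22d2c8_ol

open Finset Pool.Agent.Lib_MP_22d2c8_sym

section defs

variable {W U : Type} [DecidableEq W] (C : Circuit (W ⊕ U)) (K : ℕ)

/-- The variable in `W`, if any. -/
def own : W ⊕ U → Finset W
  | Sum.inl w => {w}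
  | Sum.inr _ => ∅

/-- The variables in `W` below a gate: those from which a directed path leads to the gate. -/
def below : C.Gate → Finset W :=
  C.fold own (fun _ B => B) fun _ F => univ.biUnion F

open Classical in
/-- A set of at most `K` variables on which the small gate `h` depends, empty for big gates. -/
noncomputable def sset (h : C.Gate) : Finset W :=
  if hs : C.Small K h then hs.choose ∩ below C h else ∅

/-- The variables on which a source depends, empty if the source is a big gate. -/
noncomputable def lset : (W ⊕ U) ⊕ C.Gate → Finset W
  | Sum.inl (Sum.inl w) => {w}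
  | Sum.inl (Sum.inr _) => ∅
  | Sum.inr h => sset C K h

open Classical in
/-- The variables that are read below the gate. -/
noncomputable def bel : C.Gate → Finset W :=
  C.fold (fun v => lset C K (Sum.inl v)) (fun h B => if C.Small K h then sset C K h else B)
    fun _ F => univ.biUnion F

open Classical in
/-- The variables that are read below a source. -/
noncomputable def belS (σ : (W ⊕ U) ⊕ C.Gate) : Finset W :=
  C.look (fun v => lset C K (Sum.inl v)) (fun h B => if C.Small K h then sset C K h else B)
    (bel C K) σ

open Classical in
/-- The gate is reached from `S` by a path of big gates outside `Z`. -/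
def live (S : Finset W) (Z : Finset C.Gate) : C.Gate → Prop :=
  C.fold (fun v => (lset C K (Sum.inl v) ∩ S).Nonempty)
    (fun h P => if C.Small K h then (sset C K h ∩ S).Nonempty else h ∉ Z ∧ P)
    fun _ F => ∃ s, F s

open Classical in
/-- The source is reached from `S` by a path of big gates outside `Z`. -/
def liveS (S : Finset W) (Z : Finset C.Gate) (σ : (W ⊕ U) ⊕ C.Gate) : Prop :=
  C.look (fun v => (lset C K (Sum.inl v) ∩ S).Nonempty)
    (fun h P => if C.Small K h then (sset C K h ∩ S).Nonempty else h ∉ Z ∧ P)
    (live C K S Z) σ

open Classical in
/-- Evaluation in which the values `z` of the gates in `Z` are guessed. -/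
noncomputable def mv (Z : Finset C.Gate) (z : C.Gate → Bool) (x : W ⊕ U → Bool) : C.Gate → Bool :=
  C.fold x (fun h b => if C.Small K h then C.val x h else if h ∈ Z then z h else b) C.op

open Classical in
/-- The value of a source in the guessed evaluation. -/
noncomputable def mvS (Z : Finset C.Gate) (z : C.Gate → Bool) (x : W ⊕ U → Bool)
    (σ : (W ⊕ U) ⊕ C.Gate) : Bool :=
  C.look x (fun h b => if C.Small K h then C.val x h else if h ∈ Z then z h else b)
    (mv C K Z z x) σ

/-- The input that is `s` on `S`, zero on the other variables of `W`, and `t` on `U`. -/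
def inpt (S : Finset W) (t : U → Bool) (s : W → Bool) : W ⊕ U → Bool
  | Sum.inl w => if w ∈ S then s w else false
  | Sum.inr u => t u

open Classical in
/-- The number of live sources of a gate. -/
noncomputable def nl (S : Finset W) (Z : Finset C.Gate) (g : C.Gate) : ℕ :=
  (univ.filter fun i : Fin (C.arity g) => liveS C K S Z (C.src g i)).card

/-- The gates whose function is recorded: those in `Z`, the output, and the live big gates with two
live sources or read twice by big gates. -/
def Node (S : Finset W) (Z : Finset C.Gate) (g : C.Gate) : Prop :=
  g ∈ Z ∨ g = C.out ∨ (C.Big K g ∧ live C K S Z g ∧ (2 ≤ nl C K S Z g ∨ C.Shared K g))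

open Classical in
/-- The number of wires from `h` to big gates. -/
noncomputable def fo (h : C.Gate) : ℕ :=
  (univ.filter fun p : (g : C.Gate) × Fin (C.arity g) =>
    C.Big K p.1 ∧ C.src p.1 p.2 = Sum.inr h).card

open Classical in
/-- The number of live wires from variables and small gates to big gates. -/
noncomputable def tB (S : Finset W) : ℕ :=
  (univ.filter fun p : (g : C.Gate) × Fin (C.arity g) =>
    C.Big K p.1 ∧ (lset C K (C.src p.1 p.2) ∩ S).Nonempty).card

open Classical in
/-- The number of wires from live shared big gates outside `Z` to big gates. -/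
noncomputable def wsh (S : Finset W) (Z : Finset C.Gate) : ℕ :=
  ∑ h ∈ univ.filter (fun h => C.Big K h ∧ h ∉ Z ∧ C.Shared K h ∧ live C K S Z h), fo C K h

end defs

/-- The variables of the second player on the grid. -/
def gS (n p L : ℕ) (v v' : ZMod p) : Finset (Fin n ⊕ Fin n) :=
  (Lib_MP_22d2c8_ol.gA n p L v).disjSum (Lib_MP_22d2c8_ol.gB n p L v')

open Classical in
/-- The sum over the shared big gates of the number of variables below. -/
noncomputable def sBel {W U : Type} [DecidableEq W] (C : Circuit (W ⊕ U)) (K : ℕ) : ℕ :=
  ∑ h ∈ univ.filter (fun h => C.Big K h ∧ C.Shared K h), (bel C K h).card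

end Pool.Agent.Lib_MP_22d2c8_ol
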