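import Pool.Agent.Lib_MP_22d2c8_ol.Eval

/-!
# OL-Double: double counting of the live wires

Proof of `nodes_le`. Let `E = ∑ g big, nl g`, the number of pairs `(g, i)` with `g` big and
`liveS (C.src g i)`. Split by the source: if it is a variable or a small gate, then `liveS σ` is
`(lset σ ∩ S).Nonempty` (`liveS_inl`, `liveS_small`), and these pairs are the ones counted by `tB`
(a source that is a big gate has `lset = ∅` by `sset_big`); if it is a big gate `h`, then
`liveS σ ↔ h ∉ Z ∧ live h` (`liveS_big`), and there are `fo h` such pairs. Hence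
`E = tB + ∑ h ∈ H, fo h` where `H` is the set of big `h ∉ Z` with `live h`. Let `Hu` be the set of the `h ∈ H`
that are not shared; for them `fo h ≤ 1` (`Shared` means `2 ≤ fo`, definitionally). The shared ones
contribute `wsh`. So `E ≤ t + Hu.card` with `t = tB + wsh`.
Every `h ∈ H` has `nl h ≥ 1` (`live_iff`). From
`E = ∑ g ∈ Hu, nl g + ∑ g big, g ∉ Hu, nl g` and `∑ g ∈ Hu, nl g = Hu.card + ∑ g ∈ Hu, (nl g - 1)`:
`∑ g ∈ Hu, (nl g - 1) + ∑ g big, g ∉ Hu, nl g ≤ t`.                                        (*)
All nodes are big (`hZ`, `hout`). A node in `Hu` is not in `Z` and not shared, so it is `C.out` or has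
`2 ≤ nl`. (a) `nl g ≤ 2 * (nl g - 1)` if `2 ≤ nl g`, and `nl g ≤ 2 * (nl g - 1) + 1` if `nl g = 1` (only for
`g = C.out`). So `∑ g node, nl g ≤ 2 * ∑ g ∈ Hu, (nl g - 1) + 1 + ∑ g big, g ∉ Hu, nl g ≤ 2 * t + 1`.
(b) The nodes not in `Z` and not equal to `C.out` are big and live, and either in `Hu` with
`1 ≤ nl g - 1`, or in `H`, not in `Hu`, with `1 ≤ nl g`. By (*) there are at most `t` of them.
-/

set_option linter.unusedSectionVars false

namespace Pool.Agent.Lib_MP_22d2c8_ol

open Finset Pool.Agent.Lib_MP_22d2c8_sym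

variable {W U : Type} [DecidableEq W] {C : Circuit (W ⊕ U)} {K : ℕ}
  {S : Finset W} {Z : Finset C.Gate}

open Classical in
private theorem Double_nl_pos {g : C.Gate} (hg : live C K S Z g) : 1 ≤ nl C K S Z g := by
  obtain ⟨i, hi⟩ := live_iff.1 hg
  unfold nl
  exact card_pos.2 ⟨i, mem_filter.2 ⟨mem_univ _, hi⟩⟩

open Classical in
private theorem Double_E_eq :
    ∑ g ∈ univ.filter (fun g => C.Big K g), nl C K S Z g =
      (univ.filter fun p : (g : C.Gate) × Fin (C.arity g) =>
        C.Big K p.1 ∧ liveS C K S Z (C.src p.1 p.2)).card := by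
  have h1 : (univ.filter fun p : (g : C.Gate) × Fin (C.arity g) =>
        C.Big K p.1 ∧ liveS C K S Z (C.src p.1 p.2)) =
      (univ.filter (fun g => C.Big K g)).sigma fun g =>
        univ.filter fun i : Fin (C.arity g) => liveS C K S Z (C.src g i) := by
    ext ⟨g, i⟩
    simp only [mem_filter, mem_univ, true_and, mem_sigma]
  rw [h1, card_sigma]
  exact sum_congr rfl fun g _ => rfl

open Classical in
private theorem Double_E_le :
    ∑ g ∈ univ.filter (fun g => C.Big K g), nl C K S Z g ≤
      tB C K S + ∑ h ∈ univ.filter (fun h => C.Big K h ∧ h ∉ Z ∧ live C K S Z h), fo C K h := by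
  rw [Double_E_eq]
  set H := univ.filter (fun h => C.Big K h ∧ h ∉ Z ∧ live C K S Z h) with hH
  have h1 : (univ.filter fun p : (g : C.Gate) × Fin (C.arity g) =>
        C.Big K p.1 ∧ liveS C K S Z (C.src p.1 p.2)) ⊆
      (univ.filter fun p : (g : C.Gate) × Fin (C.arity g) =>
        C.Big K p.1 ∧ (lset C K (C.src p.1 p.2) ∩ S).Nonempty) ∪
      H.biUnion fun h => univ.filter fun p : (g : C.Gate) × Fin (C.arity g) =>
        C.Big K p.1 ∧ C.src p.1 p.2 = Sum.inr h := by
    rintro ⟨g, i⟩ hp
    obtain ⟨hb, hl⟩ := (mem_filter.1 hp).2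
    change C.Big K g at hb
    change liveS C K S Z (C.src g i) at hl
    rw [mem_union]
    rcases hσ : C.src g i with v | h
    · left
      refine mem_filter.2 ⟨mem_univ _, hb, ?_⟩
      change (lset C K (C.src g i) ∩ S).Nonempty
      rw [hσ] at hl ⊢
      exact liveS_inl.1 hl
    · by_cases hs : C.Small K h
      · left
        refine mem_filter.2 ⟨mem_univ _, hb, ?_⟩
        change (lset C K (C.src g i) ∩ S).Nonempty
        rw [hσ] at hl ⊢
        exact (liveS_small hs).1 hl
      · right
        rw [hσ] at hl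
        obtain ⟨h2, h3⟩ := (liveS_big hs).1 hl
        refine mem_biUnion.2 ⟨h, mem_filter.2 ⟨mem_univ _, hs, h2, h3⟩, ?_⟩
        exact mem_filter.2 ⟨mem_univ _, hb, hσ⟩
  refine (card_le_card h1).trans ((card_union_le _ _).trans ?_)
  exact Nat.add_le_add_left card_biUnion_le _

open Classical in
private theorem Double_fo_le :
    ∑ h ∈ univ.filter (fun h => C.Big K h ∧ h ∉ Z ∧ live C K S Z h), fo C K h ≤
      wsh C K S Z + (univ.filter fun h : C.Gate =>
        (C.Big K h ∧ h ∉ Z ∧ live C K S Z h) ∧ ¬ C.Shared K h).card := by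
  rw [← sum_filter_add_sum_filter_not (univ.filter
    (fun h => C.Big K h ∧ h ∉ Z ∧ live C K S Z h)) (fun h => C.Shared K h)]
  refine Nat.add_le_add ?_ ?_
  · unfold wsh
    refine sum_le_sum_of_subset ?_
    intro h hh
    obtain ⟨h1, h2⟩ := mem_filter.1 hh
    obtain ⟨h3, h4, h5⟩ := (mem_filter.1 h1).2
    exact mem_filter.2 ⟨mem_univ _, h3, h4, h2, h5⟩
  · rw [filter_filter, card_eq_sum_ones]
    refine sum_le_sum ?_
    intro h hh
    have h1 : ¬ C.Shared K h := (mem_filter.1 hh).2.2
    by_contra hc
    refine h1 ?_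
    have h2 : 2 ≤ fo C K h := by omega
    unfold Circuit.Shared
    unfold fo at h2
    convert h2

open Classical in
private theorem Double_a_le :
    ∑ g ∈ univ.filter (fun g => C.Big K g),
        (if (C.Big K g ∧ g ∉ Z ∧ live C K S Z g) ∧ ¬ C.Shared K g then nl C K S Z g - 1
          else nl C K S Z g) ≤ tB C K S + wsh C K S Z := by
  set Hu := univ.filter fun h : C.Gate =>
        (C.Big K h ∧ h ∉ Z ∧ live C K S Z h) ∧ ¬ C.Shared K h with hHu
  have h1 : ∑ g ∈ univ.filter (fun g => C.Big K g),
        (if (C.Big K g ∧ g ∉ Z ∧ live C K S Z g) ∧ ¬ C.Shared K g then nl C K S Z g - 1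
          else nl C K S Z g) + Hu.card = ∑ g ∈ univ.filter (fun g => C.Big K g), nl C K S Z g := by
    have h2 : Hu.card = ∑ g ∈ univ.filter (fun g => C.Big K g),
        (if (C.Big K g ∧ g ∉ Z ∧ live C K S Z g) ∧ ¬ C.Shared K g then 1 else 0) := by
      rw [← card_filter, filter_filter]
      congr 1
      ext h
      simp only [hHu, mem_filter, mem_univ, true_and]
      constructor
      · intro hh
        exact ⟨hh.1.1, hh⟩
      · intro hh
        exact hh.2
    rw [h2, ← sum_add_distrib]
    refine sum_congr rfl ?_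
    intro g _
    by_cases hg : (C.Big K g ∧ g ∉ Z ∧ live C K S Z g) ∧ ¬ C.Shared K g
    · rw [if_pos hg, if_pos hg]
      have h3 : 1 ≤ nl C K S Z g := Double_nl_pos hg.1.2.2
      omega
    · rw [if_neg hg, if_neg hg]
      rfl
  have h4 := Double_E_le (C := C) (K := K) (S := S) (Z := Z)
  have h5 := Double_fo_le (C := C) (K := K) (S := S) (Z := Z)
  rw [← hHu] at h5
  omega

open Classical in
/-- The number of nodes and of live sources of nodes. -/
theorem nodes_le (hZ : ∀ g ∈ Z, C.Big K g) (hout : C.Big K C.out) :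
    ∑ g ∈ univ.filter (fun g => Node C K S Z g), nl C K S Z g ≤
        2 * (tB C K S + wsh C K S Z) + 1 ∧
      (univ.filter fun g => Node C K S Z g).card ≤ Z.card + 1 + (tB C K S + wsh C K S Z) := by
  have hsub : univ.filter (fun g => Node C K S Z g) ⊆ univ.filter (fun g => C.Big K g) := by
    intro g hg
    refine mem_filter.2 ⟨mem_univ _, ?_⟩
    rcases (mem_filter.1 hg).2 with h | h | h
    · exact hZ g h
    · rw [h]
      exact hout
    · exact h.1
  have hA := Double_a_le (C := C) (K := K) (S := S) (Z := Z)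
  set a : C.Gate → ℕ := fun g => if (C.Big K g ∧ g ∉ Z ∧ live C K S Z g) ∧ ¬ C.Shared K g then
    nl C K S Z g - 1 else nl C K S Z g with ha
  have hA1 : ∑ g ∈ univ.filter (fun g => Node C K S Z g), a g ≤ tB C K S + wsh C K S Z :=
    (sum_le_sum_of_subset hsub).trans hA
  have hone : ∑ g ∈ univ.filter (fun g => Node C K S Z g), (if g = C.out then 1 else 0) ≤ 1 := by
    rw [← card_filter, filter_filter]
    refine (card_le_card (t := {C.out}) ?_).trans (card_singleton _).le
    intro g hg
    exact mem_singleton.2 (mem_filter.1 hg).2.2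
  have hzc : ∑ g ∈ univ.filter (fun g => Node C K S Z g), (if g ∈ Z then 1 else 0) ≤ Z.card := by
    rw [← card_filter, filter_filter]
    refine card_le_card ?_
    intro g hg
    exact (mem_filter.1 hg).2.2
  constructor
  · have h1 : ∑ g ∈ univ.filter (fun g => Node C K S Z g), nl C K S Z g ≤
        ∑ g ∈ univ.filter (fun g => Node C K S Z g), (2 * a g + if g = C.out then 1 else 0) := by
      refine sum_le_sum ?_
      intro g hg
      have hN := (mem_filter.1 hg).2
      by_cases hu : (C.Big K g ∧ g ∉ Z ∧ live C K S Z g) ∧ ¬ C.Shared K g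
      · have h2 : a g = nl C K S Z g - 1 := if_pos hu
        have h3 : 1 ≤ nl C K S Z g := Double_nl_pos hu.1.2.2
        rw [h2]
        by_cases ho : g = C.out
        · rw [if_pos ho]
          omega
        · rw [if_neg ho]
          rcases hN with h | h | ⟨-, -, h | h⟩
          · exact absurd h hu.1.2.1
          · exact absurd h ho
          · omega
          · exact absurd h hu.2
      · have h2 : a g = nl C K S Z g := if_neg hu
        rw [h2]
        omega
    rw [sum_add_distrib, ← mul_sum] at h1
    omega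
  · have h1 : (univ.filter fun g => Node C K S Z g).card ≤
        ∑ g ∈ univ.filter (fun g => Node C K S Z g),
          ((if g ∈ Z then 1 else 0) + (if g = C.out then 1 else 0) + a g) := by
      rw [card_eq_sum_ones]
      refine sum_le_sum ?_
      intro g hg
      have hN := (mem_filter.1 hg).2
      by_cases hz : g ∈ Z
      · rw [if_pos hz]
        omega
      · by_cases ho : g = C.out
        · rw [if_pos ho]
          omega
        · rcases hN with h | h | ⟨hb, hl, h⟩
          · exact absurd h hz
          · exact absurd h ho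
          · have h3 : 1 ≤ nl C K S Z g := Double_nl_pos hl
            have h4 : 1 ≤ a g := by
              by_cases hu : (C.Big K g ∧ g ∉ Z ∧ live C K S Z g) ∧ ¬ C.Shared K g
              · have h2 : a g = nl C K S Z g - 1 := if_pos hu
                rcases h with h | h
                · omega
                · exact absurd h hu.2
              · have h2 : a g = nl C K S Z g := if_neg hu
                omega
            omega
    rw [sum_add_distrib, sum_add_distrib] at h1
    omega

end Pool.Agent.Lib_MP_22d2c8_ol
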