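import Pool.Agent.Lib_MP_22d2c8_ol.Rectangle

/-!
# Few vectors `t` give a form with a large kernel
-/

namespace Pool.Agent.Lib_MP_22d2c8_ol

open Finset Pool.Agent.Lib_MP_22d2c8_sym

variable {n : ℕ}

/-- `q.2` is the largest index in `A` at which `q.1` is one -/
def Lead (A : Finset (Fin n)) (q : (Fin n → Bool) × Fin n) : Prop :=
  q.2 ∈ A ∧ q.1 q.2 = true ∧ ∀ i ∈ A, q.1 i = true → i ≤ q.2

open Classical in
/-- translate of `B` by `i` -/
noncomputable def sh (B : Finset (Fin n)) (i : Fin n) : Finset (Fin (2 * n - 1)) := B.image (ad i)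

open Classical in
/-- positions covered by the leading indices -/
noncomputable def cov (B : Finset (Fin n)) (l : List ((Fin n → Bool) × Fin n)) :
    Finset (Fin (2 * n - 1)) := univ.filter fun u => ∃ q ∈ l, ∃ j ∈ B, ad q.2 j = u

theorem mem_cov {B : Finset (Fin n)} {l : List ((Fin n → Bool) × Fin n)}
    {u : Fin (2 * n - 1)} : u ∈ cov B l ↔ ∃ q ∈ l, ∃ j ∈ B, ad q.2 j = u := by
  unfold cov
  rw [mem_filter]
  exact ⟨fun h => h.2, fun h => ⟨mem_univ _, h⟩⟩

theorem mem_sh {B : Finset (Fin n)} {i : Fin n} {u : Fin (2 * n - 1)} :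
    u ∈ sh B i ↔ ∃ j ∈ B, ad i j = u := by
  unfold sh
  rw [mem_image]

theorem cov_nil (B : Finset (Fin n)) : cov B [] = ∅ := by
  ext u
  rw [mem_cov]
  simp

theorem cov_cons (B : Finset (Fin n)) (q : (Fin n → Bool) × Fin n)
    (l : List ((Fin n → Bool) × Fin n)) : cov B (q :: l) = cov B l ∪ sh B q.2 := by
  ext u
  rw [mem_union, mem_cov, mem_cov, mem_sh]
  constructor
  · rintro ⟨q', hq', j, hj, h⟩
    rcases List.mem_cons.1 hq' with rfl | hq'
    · exact Or.inr ⟨j, hj, h⟩
    · exact Or.inl ⟨q', hq', j, hj, h⟩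
  · rintro (⟨q', hq', j, hj, h⟩ | ⟨j, hj, h⟩)
    · exact ⟨q', List.mem_cons_of_mem _ hq', j, hj, h⟩
    · exact ⟨q, List.mem_cons_self, j, hj, h⟩

theorem bit_inj {p q : Bool} (h : bit p = bit q) : p = q := by
  cases p <;> cases q
  · rfl
  · exact absurd h (by decide)
  · exact absurd h (by decide)
  · rfl

/-- two solutions that agree outside the covered positions are equal -/
theorem sol_unique (A B : Finset (Fin n)) (l : List ((Fin n → Bool) × Fin n))
    (hl : ∀ q ∈ l, Lead A q) (t s : Fin (2 * n - 1) → Bool) (ht : ∀ q ∈ l, Ker A B t q.1)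
    (hs : ∀ q ∈ l, Ker A B s q.1) (h : ∀ u, u ∉ cov B l → t u = s u) : t = s := by
  classical
  have key : ∀ k : ℕ, ∀ u : Fin (2 * n - 1), u.1 = k → t u = s u := by
    intro k
    induction k using Nat.strong_induction_on with
    | _ k ih =>
      intro u hu
      by_cases hj : u ∈ cov B l
      · obtain ⟨q, hq, j, hjB, rfl⟩ := mem_cov.1 hj
        obtain ⟨hi₀, ha₀, hmax⟩ := hl q hq
        have h1 := ht q hq j hjB
        have h2 := hs q hq j hjB
        rw [← add_sum_erase A _ hi₀] at h1 h2
        have h3 : ∑ i ∈ A.erase q.2, bit (t (ad i j)) * bit (q.1 i) =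
            ∑ i ∈ A.erase q.2, bit (s (ad i j)) * bit (q.1 i) := by
          refine sum_congr rfl fun i hi => ?_
          obtain ⟨hne, hiA⟩ := mem_erase.1 hi
          by_cases hai : q.1 i = true
          · have h4 : i < q.2 := lt_of_le_of_ne (hmax i hiA hai) hne
            have h5 : (ad i j).1 < k := by
              rw [← hu]
              show i.1 + j.1 < q.2.1 + j.1
              have := Fin.lt_def.1 h4
              omega
            rw [ih _ h5 (ad i j) rfl]
          · have h4 : q.1 i = false := Bool.eq_false_of_not_eq_true hai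
            have h5 : bit (q.1 i) = 0 := by rw [h4]; rfl
            rw [h5, mul_zero, mul_zero]
        have h4 : bit (q.1 q.2) = 1 := by rw [ha₀]; rfl
        rw [h3, h4, mul_one] at h1
        rw [h4, mul_one] at h2
        have h5 : bit (t (ad q.2 j)) = bit (s (ad q.2 j)) := by
          have h6 := h1.trans h2.symm
          exact add_right_cancel h6
        exact bit_inj h5
      · exact h u hj
  funext u
  exact key u.1 u rfl

open Classical in
theorem sol_card (A B : Finset (Fin n)) (l : List ((Fin n → Bool) × Fin n))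
    (hl : ∀ q ∈ l, Lead A q) :
    2 ^ (cov B l).card *
      (univ.filter fun t : Fin (2 * n - 1) → Bool => ∀ q ∈ l, Ker A B t q.1).card ≤
        2 ^ (2 * n - 1) := by
  have hinj : Function.Injective
      (fun q : ({x // x ∈ cov B l} → Bool) ×
          {t : Fin (2 * n - 1) → Bool // ∀ q ∈ l, Ker A B t q.1} =>
        (fun u => if h : u ∈ cov B l then q.1 ⟨u, h⟩ else q.2.1 u : Fin (2 * n - 1) → Bool)) := by
    rintro ⟨c, t, ht⟩ ⟨c', s, hs⟩ h
    have h1 : c = c' := by
      funext u
      have h2 := congrFun h u.1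
      have h3 : (if h : u.1 ∈ cov B l then c ⟨u.1, h⟩ else t u.1) =
          (if h : u.1 ∈ cov B l then c' ⟨u.1, h⟩ else s u.1) := h2
      rw [dif_pos u.2, dif_pos u.2] at h3
      exact h3
    have h2 : t = s := by
      refine sol_unique A B l hl t s ht hs fun u hu => ?_
      have h2 := congrFun h u
      have h3 : (if h : u ∈ cov B l then c ⟨u, h⟩ else t u) =
          (if h : u ∈ cov B l then c' ⟨u, h⟩ else s u) := h2
      rw [dif_neg hu, dif_neg hu] at h3
      exact h3
    subst h1 h2
    rfl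
  have h1 := Fintype.card_le_of_injective _ hinj
  rw [Fintype.card_prod, Fintype.card_fun, Fintype.card_fun, Fintype.card_bool,
    Fintype.card_fin, Fintype.card_coe, Fintype.card_subtype] at h1
  exact h1

/-- the leading indices are pairwise well separated -/
def Sep (fc : Fin n → ℕ) (l : List ((Fin n → Bool) × Fin n)) : Prop :=
  l.Pairwise fun q q' => fc q.2 ≠ fc q'.2

theorem ad_inj {i j j' : Fin n} (h : ad i j = ad i j') : j = j' := by
  have h1 := congrArg Fin.val h
  unfold ad at h1
  simp only at h1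
  exact Fin.ext (by omega)

theorem card_sh (B : Finset (Fin n)) (i : Fin n) : (sh B i).card = B.card := by
  classical
  unfold sh
  exact card_image_of_injective _ fun _ _ h => ad_inj h

open Classical in
theorem inter_cov (fc : Fin n → ℕ) (A B : Finset (Fin n)) (M : ℕ)
    (hsep : ∀ i ∈ A, ∀ i' ∈ A, fc i ≠ fc i' → (sh B i ∩ sh B i').card ≤ M)
    (i : Fin n) (hi : i ∈ A) (l : List ((Fin n → Bool) × Fin n)) (hl : ∀ q ∈ l, Lead A q)
    (hne : ∀ q ∈ l, fc i ≠ fc q.2) : (sh B i ∩ cov B l).card ≤ l.length * M := by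
  induction l with
  | nil => simp [cov_nil]
  | cons q l ih =>
    have h1 := ih (fun q' hq' => hl q' (List.mem_cons_of_mem _ hq'))
      fun q' hq' => hne q' (List.mem_cons_of_mem _ hq')
    have h2 := hsep i hi q.2 (hl q List.mem_cons_self).1 (hne q List.mem_cons_self)
    rw [cov_cons, inter_union_distrib_left]
    refine (card_union_le _ _).trans ?_
    rw [List.length_cons]
    calc _ ≤ l.length * M + M := Nat.add_le_add h1 h2
      _ = _ := by ring

theorem cov_card (fc : Fin n → ℕ) (A B : Finset (Fin n)) (M : ℕ)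
    (hsep : ∀ i ∈ A, ∀ i' ∈ A, fc i ≠ fc i' → (sh B i ∩ sh B i').card ≤ M)
    (l : List ((Fin n → Bool) × Fin n)) (hl : ∀ q ∈ l, Lead A q) (hs : Sep fc l) :
    2 * l.length * B.card ≤ 2 * (cov B l).card + l.length ^ 2 * M := by
  classical
  induction l with
  | nil => simp
  | cons q l ih =>
    have hs' := List.pairwise_cons.1 hs
    have h1 := ih (fun q' hq' => hl q' (List.mem_cons_of_mem _ hq')) hs'.2
    have h2 := inter_cov fc A B M hsep q.2 (hl q List.mem_cons_self).1 l
      (fun q' hq' => hl q' (List.mem_cons_of_mem _ hq')) hs'.1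
    have h3 : (cov B l).card + B.card ≤ (cov B (q :: l)).card + l.length * M := by
      rw [cov_cons]
      have h4 := card_union_add_card_inter (cov B l) (sh B q.2)
      rw [card_sh] at h4
      have h5 : (cov B l ∩ sh B q.2).card ≤ l.length * M := by
        rw [inter_comm]
        exact h2
      omega
    rw [List.length_cons]
    nlinarith

open Classical in
/-- a large kernel contains a nonzero vector supported in a given block -/
theorem exists_ker (A B S : Finset (Fin n)) (ρ : ℕ) (hS : S.card = ρ)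
    (t : Fin (2 * n - 1) → Bool) (h : 2 ^ n < 2 ^ ρ * kap A B t) :
    ∃ c : Fin n → Bool, (∀ i, i ∉ S → c i = false) ∧ (∃ i ∈ S, c i = true) ∧ Ker A B t c := by
  by_contra hno
  push Not at hno
  have hinj : Function.Injective
      (fun q : (S → Bool) × {a : Fin n → Bool // Ker A B t a} =>
        (fun i => xor (if h : i ∈ S then q.1 ⟨i, h⟩ else false) (q.2.1 i) : Fin n → Bool)) := by
    rintro ⟨c, a, ha⟩ ⟨c', a', ha'⟩ hq
    set e : Fin n → Bool := fun i => xor (a i) (a' i) with he
    have h1 : ∀ i, xor (if h : i ∈ S then c ⟨i, h⟩ else false) (a i) =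
        xor (if h : i ∈ S then c' ⟨i, h⟩ else false) (a' i) := fun i => congrFun hq i
    have h2 : ∀ i, i ∉ S → e i = false := by
      intro i hi
      have h3 := h1 i
      rw [dif_neg hi, dif_neg hi, Bool.false_xor, Bool.false_xor] at h3
      rw [he]
      simp [h3]
    have h3 : Ker A B t e := by
      intro j hj
      have h4 := ha j hj
      have h5 := ha' j hj
      have h6 : ∑ i ∈ A, bit (t (ad i j)) * bit (e i) =
          ∑ i ∈ A, bit (t (ad i j)) * bit (a i) + ∑ i ∈ A, bit (t (ad i j)) * bit (a' i) := by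
        rw [← sum_add_distrib]
        refine sum_congr rfl fun i _ => ?_
        rw [he]
        simp only [bit_xor]
        ring
      rw [h6, h4, h5, add_zero]
    have h4 : ∀ i, e i = false := by
      intro i
      by_cases hi : i ∈ S
      · by_contra hc
        exact hno e h2 ⟨i, hi, by simpa using hc⟩ h3
      · exact h2 i hi
    have h5 : a = a' := by
      funext i
      have h6 := h4 i
      rw [he] at h6
      simpa using h6
    subst h5
    have h6 : c = c' := by
      funext i
      have h7 := h1 i.1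
      rw [dif_pos i.2, dif_pos i.2] at h7
      simpa using h7
    subst h6
    rfl
  have h1 := Fintype.card_le_of_injective _ hinj
  rw [Fintype.card_prod, Fintype.card_fun, Fintype.card_fun, Fintype.card_bool,
    Fintype.card_fin, Fintype.card_coe, Fintype.card_subtype, hS] at h1
  unfold kap at h
  omega

open Classical in
/-- The vectors `t` with a large kernel. -/
noncomputable def lows (A B : Finset (Fin n)) (ρ : ℕ) : Finset (Fin (2 * n - 1) → Bool) :=
  univ.filter fun t => 2 ^ n < 2 ^ ρ * kap A B t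

open Classical in
theorem low_step (fc : Fin n → ℕ) (A B : Finset (Fin n)) (M ρ s u : ℕ)
    (hsep : ∀ i ∈ A, ∀ i' ∈ A, fc i ≠ fc i' → (sh B i ∩ sh B i').card ≤ M)
    (hA : ∀ Φ : Finset ℕ, Φ.card ≤ s → ρ ≤ (A.filter fun i => fc i ∉ Φ).card)
    (hu : 2 * u + s ^ 2 * M ≤ 2 * s * B.card) (r : ℕ) :
    ∀ l : List ((Fin n → Bool) × Fin n), l.length + r = s → (∀ q ∈ l, Lead A q) → Sep fc l →
      2 ^ u * ((lows A B ρ).filter fun t => ∀ q ∈ l, Ker A B t q.1).card ≤
        2 ^ (ρ * r) * 2 ^ (2 * n - 1) := by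
  induction r with
  | zero =>
    intro l hls hl hsl
    rw [mul_zero, pow_zero, one_mul]
    have h1 := cov_card fc A B M hsep l hl hsl
    have h2 : u ≤ (cov B l).card := by
      have h3 : l.length = s := by omega
      rw [h3] at h1
      omega
    have h3 := sol_card A B l hl
    refine le_trans (Nat.mul_le_mul (Nat.pow_le_pow_right (by norm_num) h2) (card_le_card ?_)) h3
    intro t ht
    rw [mem_filter] at ht ⊢
    exact ⟨mem_univ _, ht.2⟩
  | succ r ih =>
    intro l hls hl hsl
    set Φ : Finset ℕ := (l.map fun q => fc q.2).toFinset with hΦ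
    have hΦc : Φ.card ≤ s := by
      refine (List.toFinset_card_le _).trans ?_
      rw [List.length_map]
      omega
    obtain ⟨S, hSsub, hSc⟩ := Finset.exists_subset_card_eq (hA Φ hΦc)
    -- the possible next vectors
    set Cs : Finset (Fin n → Bool) := univ.filter fun c =>
      (∀ i, i ∉ S → c i = false) ∧ ∃ i ∈ S, c i = true with hCs
    have hCcard : Cs.card ≤ 2 ^ ρ := by
      have h1 : Cs.card ≤ Fintype.card (S → Bool) := by
        rw [← Finset.card_univ]
        refine card_le_card_of_injOn (fun c i => c i.1) (fun _ _ => mem_univ _) ?_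
        intro c hc c' hc' h
        have hc1 := (mem_filter.1 hc).2.1
        have hc1' := (mem_filter.1 hc').2.1
        funext i
        by_cases hi : i ∈ S
        · exact congrFun h ⟨i, hi⟩
        · rw [hc1 i hi, hc1' i hi]
      rwa [Fintype.card_fun, Fintype.card_bool, Fintype.card_coe, hSc] at h1
    -- leading index
    have hlead : ∀ c ∈ Cs, ∃ i : Fin n, Lead A (c, i) ∧ i ∈ S := by
      intro c hc
      obtain ⟨hc1, i1, hi1, hci1⟩ := (mem_filter.1 hc).2
      obtain ⟨i₀, hi₀, hmax⟩ := Finset.exists_max_image (A.filter fun i => c i = true) id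
        ⟨i1, mem_filter.2 ⟨(mem_filter.1 (hSsub hi1)).1, hci1⟩⟩
      obtain ⟨hiA, hci⟩ := mem_filter.1 hi₀
      refine ⟨i₀, ⟨hiA, hci, fun i hi hc' => hmax i (mem_filter.2 ⟨hi, hc'⟩)⟩, ?_⟩
      by_contra hiS
      rw [hc1 i₀ hiS] at hci
      exact Bool.false_ne_true hci
    choose f hf1 hf2 using hlead
    have hcover : ((lows A B ρ).filter fun t => ∀ q ∈ l, Ker A B t q.1) ⊆
        Cs.attach.biUnion fun c => (lows A B ρ).filter fun t =>
          ∀ q ∈ (c.1, f c.1 c.2) :: l, Ker A B t q.1 := by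
      intro t ht
      obtain ⟨ht1, ht2⟩ := mem_filter.1 ht
      obtain ⟨c, hc1, hc2, hc3⟩ := exists_ker A B S ρ hSc t (mem_filter.1 ht1).2
      have hc : c ∈ Cs := mem_filter.2 ⟨mem_univ _, hc1, hc2⟩
      rw [mem_biUnion]
      refine ⟨⟨c, hc⟩, mem_attach _ _, mem_filter.2 ⟨ht1, ?_⟩⟩
      intro q hq
      rcases List.mem_cons.1 hq with rfl | hq
      · exact hc3
      · exact ht2 q hq
    have hone : ∀ c ∈ Cs.attach, 2 ^ u * ((lows A B ρ).filter fun t =>
          ∀ q ∈ (c.1, f c.1 c.2) :: l, Ker A B t q.1).card ≤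
        2 ^ (ρ * r) * 2 ^ (2 * n - 1) := by
      intro c _
      refine ih ((c.1, f c.1 c.2) :: l) ?_ ?_ ?_
      · rw [List.length_cons]
        omega
      · intro q hq
        rcases List.mem_cons.1 hq with rfl | hq
        · exact hf1 c.1 c.2
        · exact hl q hq
      · refine List.pairwise_cons.2 ⟨?_, hsl⟩
        intro q hq heq
        have h1 := hSsub (hf2 c.1 c.2)
        rw [mem_filter] at h1
        apply h1.2
        rw [hΦ, List.mem_toFinset, List.mem_map]
        exact ⟨q, hq, heq.symm⟩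
    calc 2 ^ u * ((lows A B ρ).filter fun t => ∀ q ∈ l, Ker A B t q.1).card
        ≤ 2 ^ u * ∑ c ∈ Cs.attach, ((lows A B ρ).filter fun t =>
          ∀ q ∈ (c.1, f c.1 c.2) :: l, Ker A B t q.1).card :=
          Nat.mul_le_mul_left _ ((card_le_card hcover).trans card_biUnion_le)
      _ = ∑ c ∈ Cs.attach, 2 ^ u * ((lows A B ρ).filter fun t =>
          ∀ q ∈ (c.1, f c.1 c.2) :: l, Ker A B t q.1).card := mul_sum _ _ _
      _ ≤ ∑ _c ∈ Cs.attach, 2 ^ (ρ * r) * 2 ^ (2 * n - 1) := sum_le_sum hone
      _ = Cs.card * (2 ^ (ρ * r) * 2 ^ (2 * n - 1)) := by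
          rw [sum_const, card_attach, smul_eq_mul]
      _ ≤ 2 ^ ρ * (2 ^ (ρ * r) * 2 ^ (2 * n - 1)) := Nat.mul_le_mul_right _ hCcard
      _ = 2 ^ (ρ * (r + 1)) * 2 ^ (2 * n - 1) := by
          rw [mul_add, pow_add, mul_one]
          ring

/-- Low rank is rare. -/
theorem lows_card (fc : Fin n → ℕ) (A B : Finset (Fin n)) (M ρ s u : ℕ)
    (hsep : ∀ i ∈ A, ∀ i' ∈ A, fc i ≠ fc i' → (sh B i ∩ sh B i').card ≤ M)
    (hA : ∀ Φ : Finset ℕ, Φ.card ≤ s → ρ ≤ (A.filter fun i => fc i ∉ Φ).card)
    (hu : 2 * u + s ^ 2 * M ≤ 2 * s * B.card) :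
    2 ^ u * (lows A B ρ).card ≤ 2 ^ (ρ * s) * 2 ^ (2 * n - 1) := by
  classical
  have h1 := low_step fc A B M ρ s u hsep hA hu s [] (by simp) (by simp) List.Pairwise.nil
  have h2 : ((lows A B ρ).filter fun t => ∀ q ∈ ([] : List ((Fin n → Bool) × Fin n)),
      Ker A B t q.1) = lows A B ρ := by
    refine filter_true_of_mem fun t _ q hq => ?_
    simp at hq
  have h3 : ((lows A B ρ).filter fun t => ∀ q ∈ ([] : List ((Fin n → Bool) × Fin n)),
      Ker A B t q.1).card = (lows A B ρ).card := by rw [h2]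
  calc 2 ^ u * (lows A B ρ).card = _ := by rw [← h3]
    _ ≤ _ := by convert h1 using 3

end Pool.Agent.Lib_MP_22d2c8_ol
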