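import Pool.Agent.Lib_MP_22d2c8_ol.Eval

/-!
# OL-One: sharing depth one

Proof of `one_level`. For a gate `h` let `Cone h` be the set of big gates `g` from which a path of big gates
`g = g_0, g_1, …, g_k = h` (`g_i` is a source of `g_(i+1)`, `k ≥ 0`) leads to `h`; define it as the reflexive
transitive closure of the relation `R g g' : C.Big K g ∧ C.Big K g' ∧ ∃ s, C.src g' s = Sum.inr g`.
(a) `bel C K h ⊆ ⋃ over big g with Relation.ReflTransGen R g h, over s, of lset C K (C.src g s)` for big `h`
(strong induction on `h.val` with `bel_eq`: a source that is a variable or a small gate contributes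
`lset`, see `belS_inl`, `belS_small`; a source that is a big gate `h'` contributes `bel h'`, and `R h' h`).
(b) Let `h ≠ h'` be big and shared. Then no big gate `g` has both `ReflTransGen R g h` and
`ReflTransGen R g h'`. Suppose it has. Neither of `h`, `h'` reaches the other one (*): a chain from `h` to `h'`
gives a list of big gates `h = g_0, …, g_k = h'` with `List.IsChain` of the source relation
(`List.exists_isChain_cons_of_relationReflTransGen` or a similar lemma, or a direct induction), containing
the two different shared gates `h` and `h'`, so `countP ≥ 2`, contradicting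
`SharingDepthLE K ∅ 1`. Now show by induction on the chain from `g` to `h`
(`Relation.ReflTransGen.head_induction_on`) that
`∀ g, ReflTransGen R g h → ReflTransGen R g h' → False`: if `g = h`, then `h` reaches `h'`, excluded by (*). Otherwise
`R g g1` and `ReflTransGen R g1 h`. Look at the first step of the chain from `g` to `h'`
(`Relation.ReflTransGen.cases_head`): either `g = h'`, excluded by (*), as then `h'` reaches `h`; or `R g g2`
and `ReflTransGen R g2 h'`. If `g1 = g2`, use the induction hypothesis for `g1`. If `g1 ≠ g2`, then `g` is read by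
two different big gates, so `g` is shared (`Shared`: two different pairs `(g1, s1)`, `(g2, s2)`). And `g ≠ h`:
otherwise `h` reaches `h'`. So the chain from `g` to `h` contains the two different shared gates `g` and `h`:
contradiction as in (*).
(In other words: `reach_shared : R-reachable from g to h, g and h both big and shared → g = h`.)
(c) Hence the sum over the big shared `h` of `(bel C K h).card` is at most
`∑ h ∑_(g big, g reaches h) ∑_s (lset C K (C.src g s)).card ≤ ∑_(g big) ∑_s max K 1 = max K 1 * C.wires K`, as every `g` reaches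
at most one big shared `h` (`lset_card`, `card_biUnion_le`).
-/

set_option linter.unusedSectionVars false

namespace Pool.Agent.Lib_MP_22d2c8_ol

open Finset Pool.Agent.Lib_MP_22d2c8_sym

variable {W U : Type} [DecidableEq W] (C : Circuit (W ⊕ U)) (K : ℕ)

/-- the relation between big gates: the first one is a source of the second one -/
private def oneR (g g' : C.Gate) : Prop :=
  C.Big K g ∧ C.Big K g' ∧ ∃ s, C.src g' s = Sum.inr g

private theorem one_path {g h : C.Gate} (hh : C.Big K h)
    (hr : Relation.ReflTransGen (oneR C K) g h) :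
    ∃ p : List C.Gate, C.IsBigPath K ∅ (g :: p) ∧ (g = h ∨ h ∈ p) := by
  induction hr using Relation.ReflTransGen.head_induction_on with
  | refl =>
    refine ⟨[], ⟨List.isChain_singleton _, ?_⟩, Or.inl rfl⟩
    intro g hg
    rw [List.mem_singleton] at hg
    subst hg
    exact ⟨hh, notMem_empty _⟩
  | head h1 h2 ih =>
    rename_i a c
    obtain ⟨p, ⟨hp1, hp2⟩, hp3⟩ := ih
    refine ⟨c :: p, ⟨List.isChain_cons_cons.2 ⟨h1.2.2, hp1⟩, ?_⟩, Or.inr ?_⟩
    · intro g hg
      rcases List.mem_cons.1 hg with rfl | hg
      · exact ⟨h1.1, notMem_empty _⟩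
      · exact hp2 g hg
    · rcases hp3 with rfl | hp3
      · exact List.mem_cons_self
      · exact List.mem_cons_of_mem _ hp3

private theorem one_reach (h1 : C.SharingDepthLE K ∅ 1) {g h : C.Gate} (hh : C.Big K h)
    (hr : Relation.ReflTransGen (oneR C K) g h) (sg : C.Shared K g) (sh : C.Shared K h) :
    g = h := by
  by_contra hne
  obtain ⟨p, hp, hp3⟩ := one_path C K hh hr
  have key : ∀ q : C.Gate → Bool, (∀ g, C.Shared K g → q g = true) →
      (g :: p).countP q ≤ 1 → False := by
    intro q hq h2
    rw [List.countP_cons_of_pos (hq g sg)] at h2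
    have h3 : 0 < p.countP q :=
      List.countP_pos_iff.2 ⟨h, hp3.resolve_left hne, hq h sh⟩
    omega
  refine key _ ?_ (h1 _ hp)
  intro g hg
  exact @decide_eq_true _ (_) hg

private theorem one_shared {g c c' : C.Gate} (hc : oneR C K g c) (hc' : oneR C K g c')
    (hne : c ≠ c') : C.Shared K g := by
  obtain ⟨-, b, s, hs⟩ := hc
  obtain ⟨-, b', s', hs'⟩ := hc'
  have hp : (⟨c, s⟩ : (g : C.Gate) × Fin (C.arity g)) ≠ ⟨c', s'⟩ := by
    intro h
    exact hne (congrArg Sigma.fst h)
  refine Finset.one_lt_card.2 ⟨⟨c, s⟩, ?_, ⟨c', s'⟩, ?_, hp⟩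
  · exact (@Finset.mem_filter _ _ (_) _ _).2 ⟨mem_univ _, b, hs⟩
  · exact (@Finset.mem_filter _ _ (_) _ _).2 ⟨mem_univ _, b', hs'⟩

private theorem one_uniq (h1 : C.SharingDepthLE K ∅ 1) {h h' : C.Gate} (hh : C.Big K h)
    (hh' : C.Big K h') (sh : C.Shared K h) (sh' : C.Shared K h') (hne : h ≠ h') {g : C.Gate}
    (hr : Relation.ReflTransGen (oneR C K) g h) :
    ¬ Relation.ReflTransGen (oneR C K) g h' := by
  induction hr using Relation.ReflTransGen.head_induction_on with
  | refl =>
    intro hr'
    exact hne (one_reach C K h1 hh' hr' sh sh')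
  | head h2 h3 ih =>
    rename_i a c
    intro hr'
    have h4 : Relation.ReflTransGen (oneR C K) a h := Relation.ReflTransGen.head h2 h3
    rcases Relation.ReflTransGen.cases_head hr' with heq | ⟨c', hc', hr''⟩
    · subst heq
      exact hne (one_reach C K h1 hh h4 sh' sh).symm
    · by_cases hcc : c = c'
      · subst hcc
        exact ih hr''
      · have sg := one_shared C K h2 hc' hcc
        have h5 := one_reach C K h1 hh h4 sg sh
        subst h5
        exact hne (one_reach C K h1 hh' hr' sh sh')

open Classical in
private noncomputable def oneCone (h : C.Gate) : Finset ((g : C.Gate) × Fin (C.arity g)) :=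
  univ.filter fun p => C.Big K p.1 ∧ Relation.ReflTransGen (oneR C K) p.1 h

private theorem one_bel (h : C.Gate) (hh : C.Big K h) :
    bel C K h ⊆ (oneCone C K h).biUnion fun p => lset C K (C.src p.1 p.2) := by
  classical
  have key : ∀ (m : ℕ) (g : C.Gate), g.val = m → C.Big K g →
      Relation.ReflTransGen (oneR C K) g h →
      bel C K g ⊆ (oneCone C K h).biUnion fun p => lset C K (C.src p.1 p.2) := by
    intro m
    induction m using Nat.strong_induction_on with
    | _ m ih =>
      intro g hgm hg hgr
      rw [bel_eq]
      intro w hw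
      rw [mem_biUnion] at hw
      obtain ⟨i, -, hi⟩ := hw
      have hmem : (⟨g, i⟩ : (g : C.Gate) × Fin (C.arity g)) ∈ oneCone C K h :=
        mem_filter.2 ⟨mem_univ _, hg, hgr⟩
      rcases hσ : C.src g i with v | h'
      · rw [hσ, belS_inl] at hi
        refine mem_biUnion.2 ⟨⟨g, i⟩, hmem, ?_⟩
        change w ∈ lset C K (C.src g i)
        rw [hσ]
        exact hi
      · rw [hσ] at hi
        by_cases hs : C.Small K h'
        · rw [belS_small hs] at hi
          refine mem_biUnion.2 ⟨⟨g, i⟩, hmem, ?_⟩
          change w ∈ lset C K (C.src g i)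
          rw [hσ]
          exact hi
        · rw [belS_big hs] at hi
          have h2 := C.src_lt g i h' hσ
          exact ih h'.val (hgm ▸ h2) h' rfl hs
            (Relation.ReflTransGen.head ⟨hs, hg, i, hσ⟩ hgr) hi
  exact key h.val h rfl hh Relation.ReflTransGen.refl

private theorem one_wires : (univ.filter fun p : (g : C.Gate) × Fin (C.arity g) =>
    @decide (C.Big K p.1) (Classical.propDecidable _) = true).card = C.wires K := by
  classical
  have h1 : (univ.filter fun p : (g : C.Gate) × Fin (C.arity g) =>
      @decide (C.Big K p.1) (Classical.propDecidable _) = true) =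
      (univ.filter fun g : C.Gate => C.Big K g).sigma fun _ => univ := by
    ext p
    simp
  rw [h1, card_sigma]
  unfold Circuit.wires
  refine Finset.sum_congr ?_ fun g _ => ?_
  · ext g
    simp
  · rw [card_univ, Fintype.card_fin]

/-- In circuits of sharing depth one the total number of variables below shared gates is at most
the number of wires, up to a constant. -/
theorem one_level (h1 : C.SharingDepthLE K ∅ 1) : sBel C K ≤ max K 1 * C.wires K := by
  classical
  have hdisj : Set.PairwiseDisjoint
      (↑(univ.filter fun h : C.Gate => C.Big K h ∧ C.Shared K h) : Set C.Gate)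
      (oneCone C K) := by
    intro h hh h' hh' hne
    rw [mem_coe, mem_filter] at hh hh'
    refine disjoint_left.2 ?_
    intro p hp hp'
    exact one_uniq C K h1 hh.2.1 hh'.2.1 hh.2.2 hh'.2.2 hne (mem_filter.1 hp).2.2
      (mem_filter.1 hp').2.2
  have h2 : ∀ h ∈ univ.filter (fun h : C.Gate => C.Big K h ∧ C.Shared K h),
      (bel C K h).card ≤ max K 1 * (oneCone C K h).card := by
    intro h hh
    refine (card_le_card (one_bel C K h (mem_filter.1 hh).2.1)).trans ?_
    refine card_biUnion_le.trans ?_
    refine (Finset.sum_le_sum fun p _ => lset_card (C := C) (K := K) (C.src p.1 p.2)).trans ?_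
    rw [Finset.sum_const, smul_eq_mul, mul_comm]
  have h3 : sBel C K = ∑ h ∈ univ.filter (fun h : C.Gate => C.Big K h ∧ C.Shared K h),
      (bel C K h).card := by
    unfold sBel
    refine Finset.sum_congr ?_ fun _ _ => rfl
    ext g
    simp
  rw [h3]
  refine (Finset.sum_le_sum h2).trans ?_
  rw [← Finset.mul_sum, ← card_biUnion hdisj, ← one_wires]
  refine Nat.mul_le_mul_left _ (card_le_card ?_)
  intro p hp
  rw [mem_biUnion] at hp
  obtain ⟨h, -, hp⟩ := hp
  rw [mem_filter]
  refine ⟨mem_univ _, ?_⟩
  exact decide_eq_true (mem_filter.1 hp).2.1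

end Pool.Agent.Lib_MP_22d2c8_ol
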