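import Pool.Agent.Lib_MP_22d2c8_sym.Rect

/-!
# A class of `t` and a set of pairs on which the form does not depend on `t`
-/

namespace Pool.Agent.Lib_MP_22d2c8_ol

open Finset Pool.Agent.Lib_MP_22d2c8_sym

variable {n : ℕ}

theorem zmod_cases (r : ZMod 2) : r = 0 ∨ r = 1 := by
  revert r
  decide

theorem chi_zero : chi 0 = 1 := by
  unfold chi
  rw [if_pos rfl]

theorem chi_one : chi 1 = -1 := by
  unfold chi
  rw [if_neg one_ne_zero]

theorem chi_sq (r : ZMod 2) : chi r * chi r = 1 := by
  rcases zmod_cases r with rfl | rfl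
  · rw [chi_zero]; norm_num
  · rw [chi_one]; norm_num

theorem bit_xor (p q : Bool) : bit (xor p q) = bit p + bit q := by
  cases p <;> cases q <;> rfl

theorem bil_eq (A B : Finset (Fin n)) (t : Fin (2 * n - 1) → Bool)
    (a b : Fin n → Bool) :
    bil A B t a b = ∑ j ∈ B, (∑ i ∈ A, bit (t (ad i j)) * bit (a i)) * bit (b j) := by
  unfold bil
  rw [sum_comm]
  refine sum_congr rfl fun j _ => ?_
  rw [sum_mul]

/-- sum of two vectors -/
def xr {m : ℕ} (t t' : Fin m → Bool) : Fin m → Bool := fun u => xor (t u) (t' u)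

theorem xr_xr {m : ℕ} (t t' : Fin m → Bool) : xr t (xr t t') = t' := by
  funext i
  unfold xr
  cases t i <;> cases t' i <;> rfl

theorem bil_xr (A B : Finset (Fin n)) (t t' : Fin (2 * n - 1) → Bool) (a b : Fin n → Bool) :
    bil A B (xr t t') a b = bil A B t a b + bil A B t' a b := by
  unfold bil
  rw [← sum_add_distrib]
  refine sum_congr rfl fun i _ => ?_
  rw [← sum_add_distrib]
  refine sum_congr rfl fun j _ => ?_
  have h : bit (xr t t' (ad i j)) = bit (t (ad i j)) + bit (t' (ad i j)) := bit_xor _ _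
  rw [h]
  ring

/-- one bit flipped -/
def flipb (j : Fin n) (b : Fin n → Bool) : Fin n → Bool := Function.update b j (!b j)

theorem flipb_inv (j : Fin n) : Function.Involutive (flipb (n := n) j) := by
  intro b
  funext i
  unfold flipb
  by_cases h : i = j
  · subst h
    rw [Function.update_self, Function.update_self, Bool.not_not]
  · rw [Function.update_of_ne h, Function.update_of_ne h]

theorem sum_chi_b (A B : Finset (Fin n)) (t : Fin (2 * n - 1) → Bool)
    (a : Fin n → Bool) :
    (Ker A B t a → ∑ b, chi (bil A B t a b) = 2 ^ n) ∧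
      (¬ Ker A B t a → ∑ b, chi (bil A B t a b) = 0) := by
  constructor
  · intro h
    have h1 : ∀ b ∈ (univ : Finset (Fin n → Bool)), chi (bil A B t a b) = 1 := by
      intro b _
      rw [bil_eq, sum_eq_zero, chi_zero]
      intro j hj
      rw [h j hj, zero_mul]
    rw [sum_congr rfl h1, sum_const, card_univ, Fintype.card_fun, Fintype.card_bool,
      Fintype.card_fin, nsmul_eq_mul, mul_one]
    push_cast
    rfl
  · intro h
    unfold Ker at h
    push Not at h
    obtain ⟨j, hj, hr⟩ := h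
    have hr1 : ∑ i ∈ A, bit (t (ad i j)) * bit (a i) = 1 := (zmod_cases _).resolve_left hr
    have h1 : ∀ b, chi (bil A B t a (flipb j b)) = -chi (bil A B t a b) := by
      intro b
      have e1 : bil A B t a (flipb j b) = bil A B t a b + 1 := by
        rw [bil_eq, bil_eq, ← add_sum_erase B _ hj, ← add_sum_erase B _ hj, hr1]
        have e2 : ∑ x ∈ B.erase j, (∑ i ∈ A, bit (t (ad i x)) * bit (a i)) *
            bit (flipb j b x) =
            ∑ x ∈ B.erase j, (∑ i ∈ A, bit (t (ad i x)) * bit (a i)) * bit (b x) := by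
          refine sum_congr rfl fun x hx => ?_
          have hne : x ≠ j := (mem_erase.1 hx).1
          unfold flipb
          rw [Function.update_of_ne hne]
        have e3 : bit (flipb j b j) = bit (b j) + 1 := by
          unfold flipb
          rw [Function.update_self]
          cases b j <;> rfl
        rw [e2, e3]
        ring
      rw [e1, chi_add, chi_one]
      ring
    have h2 : ∑ b, chi (bil A B t a (flipb j b)) = ∑ b, chi (bil A B t a b) :=
      Equiv.sum_comp (flipb_inv j).toPerm fun b => chi (bil A B t a b)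
    rw [sum_congr rfl fun b _ => h1 b, sum_neg_distrib] at h2
    linarith

theorem sum_chi (A B : Finset (Fin n)) (t : Fin (2 * n - 1) → Bool) :
    ∑ a, ∑ b, chi (bil A B t a b) = 2 ^ n * (kap A B t : ℝ) := by
  classical
  have h1 : ∀ a, ∑ b, chi (bil A B t a b) = if Ker A B t a then (2 : ℝ) ^ n else 0 := by
    intro a
    by_cases h : Ker A B t a
    · rw [(sum_chi_b A B t a).1 h, if_pos h]
    · rw [(sum_chi_b A B t a).2 h, if_neg h]
  rw [sum_congr rfl fun a _ => h1 a, ← sum_filter, sum_const, nsmul_eq_mul, mul_comm]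
  unfold kap
  congr 3

theorem kap_le (A B : Finset (Fin n)) (t : Fin (2 * n - 1) → Bool) : kap A B t ≤ 2 ^ n := by
  unfold kap
  refine (card_le_univ _).trans (le_of_eq ?_)
  rw [Fintype.card_fun, Fintype.card_bool, Fintype.card_fin]

/-- If the form does not depend on `t ∈ T` for the pairs in `R` then `R` or `T` is small. -/
theorem rectangle (A B : Finset (Fin n)) (R : Finset ((Fin n → Bool) × (Fin n → Bool)))
    (T Low : Finset (Fin (2 * n - 1) → Bool)) (κ : ℕ) (hT : T.Nonempty)
    (hR : ∀ p ∈ R, ∀ t ∈ T, ∀ t' ∈ T, bil A B t p.1 p.2 = bil A B t' p.1 p.2)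
    (hL : ∀ t, t ∉ Low → kap A B t ≤ κ) :
    R.card * T.card ≤ 2 ^ n * (κ * T.card + 2 ^ n * Low.card) := by
  classical
  have hlow : ∑ p ∈ R, (∑ t ∈ T, chi (bil A B t p.1 p.2)) ^ 2 = R.card * (T.card : ℝ) ^ 2 := by
    rw [← nsmul_eq_mul, ← sum_const]
    refine sum_congr rfl fun p hp => ?_
    obtain ⟨t0, ht0⟩ := hT
    have h1 : ∑ t ∈ T, chi (bil A B t p.1 p.2) = T.card * chi (bil A B t0 p.1 p.2) := by
      rw [← nsmul_eq_mul, ← sum_const]
      refine sum_congr rfl fun t ht => ?_
      rw [hR p hp t ht t0 ht0]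
    rw [h1, mul_pow, sq (chi _), chi_sq, mul_one]
  have hup : ∑ p : (Fin n → Bool) × (Fin n → Bool), (∑ t ∈ T, chi (bil A B t p.1 p.2)) ^ 2 =
      ∑ t ∈ T, ∑ t' ∈ T, 2 ^ n * (kap A B (xr t t') : ℝ) := by
    have h1 : ∀ p : (Fin n → Bool) × (Fin n → Bool), (∑ t ∈ T, chi (bil A B t p.1 p.2)) ^ 2 =
        ∑ t ∈ T, ∑ t' ∈ T, chi (bil A B (xr t t') p.1 p.2) := by
      intro p
      rw [sq, sum_mul_sum]
      refine sum_congr rfl fun t _ => sum_congr rfl fun t' _ => ?_
      rw [bil_xr, chi_add]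
    rw [sum_congr rfl fun p _ => h1 p, sum_comm]
    refine sum_congr rfl fun t _ => ?_
    rw [sum_comm]
    refine sum_congr rfl fun t' _ => ?_
    rw [← sum_chi, Fintype.sum_prod_type]
  have hle : ∑ p ∈ R, (∑ t ∈ T, chi (bil A B t p.1 p.2)) ^ 2 ≤
      ∑ p : (Fin n → Bool) × (Fin n → Bool), (∑ t ∈ T, chi (bil A B t p.1 p.2)) ^ 2 :=
    sum_le_sum_of_subset_of_nonneg (subset_univ _) fun _ _ _ => sq_nonneg _
  have hk : ∀ t ∈ T, ∑ t' ∈ T, 2 ^ n * (kap A B (xr t t') : ℝ) ≤
      2 ^ n * (κ * T.card + 2 ^ n * Low.card) := by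
    intro t _
    rw [← mul_sum]
    refine mul_le_mul_of_nonneg_left ?_ (by positivity)
    have h1 : ∀ t' ∈ T, (kap A B (xr t t') : ℝ) ≤ κ + if xr t t' ∈ Low then (2 : ℝ) ^ n else 0 := by
      intro t' _
      by_cases h : xr t t' ∈ Low
      · rw [if_pos h]
        have h2 : (kap A B (xr t t') : ℝ) ≤ 2 ^ n := by exact_mod_cast kap_le A B (xr t t')
        have h3 : (0 : ℝ) ≤ κ := Nat.cast_nonneg _
        linarith
      · rw [if_neg h, add_zero]
        exact_mod_cast hL _ h
    refine (sum_le_sum h1).trans ?_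
    rw [sum_add_distrib, sum_const, nsmul_eq_mul, ← sum_filter, sum_const, nsmul_eq_mul]
    have h2 : ((T.filter fun t' => xr t t' ∈ Low).card : ℝ) ≤ Low.card := by
      have h3 : (T.filter fun t' => xr t t' ∈ Low).card ≤ Low.card := by
        refine card_le_card_of_injOn (fun t' => xr t t') ?_ ?_
        · intro t' ht'
          exact (mem_filter.1 ht').2
        · intro u _ v _ huv
          have h4 : xr t (xr t u) = xr t (xr t v) := congrArg (xr t) huv
          rwa [xr_xr, xr_xr] at h4
      exact_mod_cast h3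
    have h4 : ((T.filter fun t' => xr t t' ∈ Low).card : ℝ) * 2 ^ n ≤ Low.card * 2 ^ n :=
      mul_le_mul_of_nonneg_right h2 (by positivity)
    linarith
  have h1 : (R.card : ℝ) * (T.card : ℝ) ^ 2 ≤
      T.card * (2 ^ n * (κ * T.card + 2 ^ n * Low.card)) := by
    rw [← hlow]
    refine hle.trans ?_
    rw [hup]
    refine (sum_le_sum hk).trans ?_
    rw [sum_const, nsmul_eq_mul]
  have hTpos : (0 : ℝ) < T.card := by
    exact_mod_cast card_pos.2 hT
  have h2 : (T.card : ℝ) * (R.card * T.card) ≤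
      T.card * (2 ^ n * (κ * T.card + 2 ^ n * Low.card)) := by
    calc (T.card : ℝ) * (R.card * T.card) = R.card * (T.card : ℝ) ^ 2 := by ring
      _ ≤ _ := h1
  have h3 := le_of_mul_le_mul_left h2 hTpos
  exact_mod_cast h3

end Pool.Agent.Lib_MP_22d2c8_ol
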