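import Mathlib

/-!
# OL-Scales: summation over the scales `2 ^ i` (pure real analysis)

`a` and `c` are constants, `H` the set of shared gates, `f h` the fan-out of `h`, `b h` the number of
variables below `h`, `V` the number of wires.

Proof of `scales`. Let `I` be the number of `i` with `a * 2 ^ i ≤ p`; they are `0, …, I - 1`, and
`p < a * 2 ^ I`, so `I ≥ log (p / a) / log 2 ≥ (1 / 2) * log p` for `p ≥ a ^ 2` (as `log 2 ≤ 1`).
(For instance `I = Nat.log 2 (p / a) + 1` for `a ≤ p`.) Sum the hypothesis over `i < I`: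
`I * p ^ 2 ≤ c * (V * ∑ 2 ^ i / p + ∑ h, f h * ∑_(i, b h * 2 ^ i ≤ p) b h * 2 ^ i / p +
  ∑ h, ∑_(i, p < b h * 2 ^ i) p / 2 ^ i)`.
(1) `∑_(i < I) 2 ^ i ≤ 2 ^ I ≤ 2 * p` as `2 ^ (I - 1) ≤ a * 2 ^ (I - 1) ≤ p` (`a ≥ 1`), so the first sum is `≤ 2`.
(2) for reals `x ≥ 0`, `P ≥ 0`: `∑_(i < I) (if x * 2 ^ i ≤ P then x * 2 ^ i else 0) ≤ min (2 * P) (x * 2 ^ I)`,
by induction on `I`. So the inner sum of the second term is `≤ 2`.
(3) for reals `x ≥ 0`, `P ≥ 0`: `∑_(i < I) (if P < x * 2 ^ i then P / 2 ^ i else 0) ≤ min (2 * P) (2 * x)`, by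
induction on `I` for all `P` (split off `i = 0`, the remaining sum is the sum for `P / 2`). So the
inner sum of the third term is `≤ 2 * b h`.
Total: `I * p ^ 2 ≤ c * (2 * V + 2 * ∑ f h + 2 * ∑ b h) ≤ 4 * c * (V + ∑ b h)`. So `c' = 1 / (8 * c)`.
-/

namespace Pool.Agent.Lib_MP_22d2c8_ol

open Finset

private theorem Scales_two (x P : ℕ) (n : ℕ) :
    ∑ i ∈ range n, (if x * 2 ^ i ≤ P then (x : ℝ) * 2 ^ i else 0) ≤ 2 * P ∧
      ∑ i ∈ range n, (if x * 2 ^ i ≤ P then (x : ℝ) * 2 ^ i else 0) ≤ x * 2 ^ n := by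
  induction n with
  | zero => simp
  | succ n ih =>
    obtain ⟨h1, h2⟩ := ih
    rw [Finset.sum_range_succ]
    have hx : (0 : ℝ) ≤ x * 2 ^ n := by positivity
    have hp : (x : ℝ) * 2 ^ (n + 1) = x * 2 ^ n + x * 2 ^ n := by ring
    by_cases h : x * 2 ^ n ≤ P
    · have h' : (x : ℝ) * 2 ^ n ≤ P := by exact_mod_cast h
      rw [if_pos h, hp]
      constructor <;> linarith
    · rw [if_neg h, hp]
      constructor <;> linarith

private theorem Scales_three {x : ℝ} (hx : 0 ≤ x) (n : ℕ) :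
    ∀ P : ℝ, 0 ≤ P →
      ∑ i ∈ range n, (if P < x * 2 ^ i then P / 2 ^ i else 0) ≤ 2 * P ∧
        ∑ i ∈ range n, (if P < x * 2 ^ i then P / 2 ^ i else 0) ≤ 2 * x := by
  induction n with
  | zero =>
    intro P hP
    simp [hx, hP]
  | succ n ih =>
    intro P hP
    obtain ⟨h1, h2⟩ := ih (P / 2) (by positivity)
    have h3 : ∑ i ∈ range n, (if P < x * 2 ^ (i + 1) then P / 2 ^ (i + 1) else 0) =
        ∑ i ∈ range n, (if P / 2 < x * 2 ^ i then P / 2 / 2 ^ i else 0) := by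
      refine Finset.sum_congr rfl fun i _ => ?_
      have e1 : P < x * 2 ^ (i + 1) ↔ P / 2 < x * 2 ^ i := by
        rw [pow_succ, div_lt_iff₀ (by norm_num : (0 : ℝ) < 2), mul_assoc]
      have e2 : P / 2 ^ (i + 1) = P / 2 / 2 ^ i := by
        rw [pow_succ, div_div, mul_comm]
      rw [e2]
      exact if_congr e1 rfl rfl
    rw [Finset.sum_range_succ', h3]
    simp only [pow_zero, mul_one, div_one]
    by_cases h : P < x
    · rw [if_pos h]
      constructor <;> linarith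
    · rw [if_neg h]
      constructor <;> linarith

/-- Summation over the scales. -/
theorem scales (a : ℕ) (ha : 1 ≤ a) (c : ℝ) (hc : 0 < c) :
    ∃ c' : ℝ, 0 < c' ∧ ∃ P : ℕ, ∀ p : ℕ, P ≤ p → ∀ (ι : Type) (H : Finset ι) (f b : ι → ℕ) (V : ℕ),
      ∑ h ∈ H, f h ≤ V →
      (∀ i : ℕ, a * 2 ^ i ≤ p → (p : ℝ) ^ 2 ≤ c * ((2 : ℝ) ^ i / p * V +
        ∑ h ∈ H, (if b h * 2 ^ i ≤ p then (f h : ℝ) * (b h * 2 ^ i / p) else 0) +
        ∑ h ∈ H, (if p < b h * 2 ^ i then (p : ℝ) / 2 ^ i else 0))) →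
      c' * p ^ 2 * Real.log p ≤ V + ∑ h ∈ H, (b h : ℝ) := by
  refine ⟨1 / (8 * c), by positivity, a ^ 2 + 1, ?_⟩
  intro p hp ι H f b V hV hyp
  have hap : a ≤ p := by nlinarith
  have hp0 : 0 < p := by omega
  have hpR : (0 : ℝ) < p := by exact_mod_cast hp0
  have haR : (0 : ℝ) < a := by exact_mod_cast ha
  set I := Nat.log 2 (p / a) + 1 with hI
  have hq : p / a ≠ 0 := (Nat.div_pos hap ha).ne'
  have hI1 : ∀ i ∈ range I, a * 2 ^ i ≤ p := by
    intro i hi
    have h1 : i ≤ Nat.log 2 (p / a) := by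
      have := Finset.mem_range.mp hi
      omega
    have h2 : 2 ^ i ≤ p / a := Nat.pow_le_of_le_log hq h1
    rw [mul_comm]
    exact (Nat.le_div_iff_mul_le ha).mp h2
  have hI2 : p < a * 2 ^ I := by
    have h1 : p / a < 2 ^ I := Nat.lt_pow_succ_log_self (by norm_num) _
    rw [mul_comm]
    exact (Nat.div_lt_iff_lt_mul ha).mp h1
  have hI3 : (2 : ℝ) ^ I ≤ 2 * p := by
    have h1 := hI1 (Nat.log 2 (p / a)) (Finset.mem_range.mpr (by omega))
    have h2 : 2 ^ Nat.log 2 (p / a) ≤ p :=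
      (Nat.le_mul_of_pos_left _ ha).trans h1
    have h3 : 2 ^ I ≤ 2 * p := by
      rw [hI, pow_succ]
      omega
    exact_mod_cast h3
  -- the logarithm
  have hlog : Real.log p ≤ 2 * I := by
    have h1 : (p : ℝ) < a * 2 ^ I := by exact_mod_cast hI2
    have h2 : Real.log p ≤ Real.log a + I * Real.log 2 := by
      rw [← Real.log_pow, ← Real.log_mul haR.ne' (by positivity)]
      exact Real.log_le_log hpR h1.le
    have h3 : 2 * Real.log a ≤ Real.log p := by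
      have h4 : (a : ℝ) ^ 2 ≤ p := by
        have : a ^ 2 ≤ p := by omega
        exact_mod_cast this
      have h5 := Real.log_le_log (by positivity) h4
      rw [Real.log_pow] at h5
      exact_mod_cast h5
    have h6 : Real.log 2 ≤ 1 := by
      have := Real.log_two_lt_d9
      linarith
    have h7 : (I : ℝ) * Real.log 2 ≤ I * 1 :=
      mul_le_mul_of_nonneg_left h6 (Nat.cast_nonneg _)
    linarith
  -- the sum over the scales
  have hsum := Finset.sum_le_sum fun i hi => hyp i (hI1 i hi)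
  rw [Finset.sum_const, Finset.card_range, nsmul_eq_mul, ← Finset.mul_sum,
    Finset.sum_add_distrib, Finset.sum_add_distrib] at hsum
  have hA : ∑ i ∈ range I, (2 : ℝ) ^ i / p * V ≤ 2 * V := by
    rw [← Finset.sum_mul, ← Finset.sum_div]
    refine mul_le_mul_of_nonneg_right ?_ (Nat.cast_nonneg _)
    rw [div_le_iff₀ hpR]
    have h1 : ∑ i ∈ range I, (2 : ℝ) ^ i = 2 ^ I - 1 := by
      have := geom_sum_eq (by norm_num : (2 : ℝ) ≠ 1) I
      rw [this]
      norm_num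
    rw [h1]
    linarith
  have hB : ∑ i ∈ range I, ∑ h ∈ H,
      (if b h * 2 ^ i ≤ p then (f h : ℝ) * (b h * 2 ^ i / p) else 0) ≤ 2 * V := by
    rw [Finset.sum_comm]
    have h1 : ∀ h ∈ H, ∑ i ∈ range I,
        (if b h * 2 ^ i ≤ p then (f h : ℝ) * (b h * 2 ^ i / p) else 0) ≤ 2 * (f h : ℝ) := by
      intro h _
      have h2 : ∑ i ∈ range I,
          (if b h * 2 ^ i ≤ p then (f h : ℝ) * (b h * 2 ^ i / p) else 0) =
          f h * ((∑ i ∈ range I, (if b h * 2 ^ i ≤ p then (b h : ℝ) * 2 ^ i else 0)) / p) := by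
        rw [Finset.sum_div, Finset.mul_sum]
        refine Finset.sum_congr rfl fun i _ => ?_
        split_ifs <;> simp
      rw [h2, mul_comm (2 : ℝ)]
      refine mul_le_mul_of_nonneg_left ?_ (Nat.cast_nonneg _)
      rw [div_le_iff₀ hpR]
      exact (Scales_two (b h) p I).1
    refine (Finset.sum_le_sum h1).trans ?_
    rw [← Finset.mul_sum]
    have h3 : (∑ h ∈ H, (f h : ℝ)) ≤ V := by exact_mod_cast hV
    linarith
  have hC : ∑ i ∈ range I, ∑ h ∈ H, (if p < b h * 2 ^ i then (p : ℝ) / 2 ^ i else 0) ≤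
      2 * ∑ h ∈ H, (b h : ℝ) := by
    rw [Finset.sum_comm, Finset.mul_sum]
    refine Finset.sum_le_sum fun h _ => ?_
    have h2 : ∑ i ∈ range I, (if p < b h * 2 ^ i then (p : ℝ) / 2 ^ i else 0) =
        ∑ i ∈ range I, (if (p : ℝ) < b h * 2 ^ i then (p : ℝ) / 2 ^ i else 0) := by
      refine Finset.sum_congr rfl fun i _ => ?_
      refine if_congr ?_ rfl rfl
      exact_mod_cast Iff.rfl
    rw [h2]
    exact (Scales_three (Nat.cast_nonneg (b h)) I p hpR.le).2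
  have hb : 0 ≤ ∑ h ∈ H, (b h : ℝ) := Finset.sum_nonneg fun h _ => Nat.cast_nonneg _
  have htot : (I : ℝ) * (p : ℝ) ^ 2 ≤ c * (4 * (V + ∑ h ∈ H, (b h : ℝ))) := by
    refine hsum.trans (mul_le_mul_of_nonneg_left ?_ hc.le)
    linarith
  have h8 : (p : ℝ) ^ 2 * Real.log p ≤ (8 * c) * (V + ∑ h ∈ H, (b h : ℝ)) := by
    have h9 : (p : ℝ) ^ 2 * Real.log p ≤ (p : ℝ) ^ 2 * (2 * I) :=
      mul_le_mul_of_nonneg_left hlog (by positivity)
    nlinarith [h9, htot]
  rw [mul_assoc, one_div, inv_mul_le_iff₀ (by positivity)]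
  exact h8

end Pool.Agent.Lib_MP_22d2c8_ol
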